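import Mathlib

set_option autoImplicit false

/-!
# `r`-elements, `r'`-elements and the two radicals of a periodic group
-/

namespace Run7.h806.RL

universe u v

/-- a multiplicative set of allowed exponents -/
structure Ex (Q : ℕ → Prop) : Prop where
  one : Q 1
  mul : ∀ a b, Q a → Q b → Q (a * b)
  pos : ∀ a, Q a → 0 < a

/-- some allowed power of `x` is trivial -/
def El (Q : ℕ → Prop) {G : Type u} [Group G] (x : G) : Prop := ∃ n, Q n ∧ x ^ n = 1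

variable {G : Type u} [Group G] {H : Type v} [Group H] {Q : ℕ → Prop}

theorem el_one (hQ : Ex Q) : El Q (1 : G) := ⟨1, hQ.one, one_pow _⟩

theorem El.map {x : G} (h : El Q x) (f : G →* H) : El Q (f x) := by
  obtain ⟨n, h1, h2⟩ := h
  exact ⟨n, h1, by rw [← map_pow, h2, map_one]⟩

theorem El.of_map {x : G} {f : G →* H} (hf : Function.Injective f) (h : El Q (f x)) : El Q x := by
  obtain ⟨n, h1, h2⟩ := h
  exact ⟨n, h1, hf (by rw [map_pow, h2, map_one])⟩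

theorem El.conj {x : G} (h : El Q x) (g : G) : El Q (g * x * g⁻¹) := by
  obtain ⟨n, h1, h2⟩ := h
  exact ⟨n, h1, by rw [conj_pow, h2, mul_one, mul_inv_cancel]⟩

theorem El.conj' {x : G} (h : El Q x) (g : G) : El Q (g⁻¹ * x * g) := by
  have := h.conj g⁻¹
  rwa [inv_inv] at this

theorem El.of_conj {x g : G} (h : El Q (g * x * g⁻¹)) : El Q x := by
  have := h.conj' g
  have e : g⁻¹ * (g * x * g⁻¹) * g = x := by group
  rwa [e] at this

theorem El.inv {x : G} (h : El Q x) : El Q x⁻¹ := by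
  obtain ⟨n, h1, h2⟩ := h
  exact ⟨n, h1, by rw [inv_pow, h2, inv_one]⟩

theorem El.pow {x : G} (h : El Q x) (k : ℕ) : El Q (x ^ k) := by
  obtain ⟨n, h1, h2⟩ := h
  exact ⟨n, h1, by rw [← pow_mul, mul_comm, pow_mul, h2, one_pow]⟩

theorem El.mul_comm {x y : G} (h : El Q (x * y)) : El Q (y * x) := by
  have := h.conj y
  have e : y * (x * y) * y⁻¹ = y * x := by group
  rwa [e] at this

theorem El.of_pow (hQ : Ex Q) {x : G} {n : ℕ} (hn : Q n) (h : El Q (x ^ n)) : El Q x := by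
  obtain ⟨k, h1, h2⟩ := h
  exact ⟨n * k, hQ.mul _ _ hn h1, by rw [pow_mul, h2]⟩

theorem el_sub {K : Subgroup G} {x : K} : El Q x ↔ El Q (x : G) :=
  ⟨fun h => h.map K.subtype, fun h => El.of_map K.subtype_injective h⟩

/-- modulo a normal subgroup all of whose elements have the property -/
theorem el_of_mk (hQ : Ex Q) {N : Subgroup G} [N.Normal] (hN : ∀ x ∈ N, El Q x) {x : G}
    (h : El Q (x : G ⧸ N)) : El Q x := by
  obtain ⟨n, h1, h2⟩ := h
  rw [← QuotientGroup.mk_pow, QuotientGroup.eq_one_iff] at h2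
  exact El.of_pow hQ h1 (hN _ h2)

/-- the radical -/
def Rd (Q : ℕ → Prop) (hQ : Ex Q) (G : Type u) [Group G] : Subgroup G where
  carrier := {e | El Q e ∧ ∀ z, El Q z → El Q (e * z)}
  one_mem' := ⟨el_one hQ, fun z hz => by rwa [one_mul]⟩
  mul_mem' := by
    rintro x y ⟨hx, hx'⟩ ⟨hy, hy'⟩
    refine ⟨hx' y hy, fun z hz => ?_⟩
    rw [mul_assoc]
    exact hx' _ (hy' z hz)
  inv_mem' := by
    rintro x ⟨hx, hx'⟩
    refine ⟨hx.inv, fun z hz => ?_⟩
    have h : ∀ k : ℕ, El Q (x ^ k * z) := by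
      intro k
      induction k with
      | zero => simpa using hz
      | succ k ih =>
        rw [pow_succ', mul_assoc]
        exact hx' _ ih
    obtain ⟨n, h1, h2⟩ := hx
    have e : x⁻¹ = x ^ (n - 1) := by
      rw [inv_eq_iff_mul_eq_one, ← pow_succ', Nat.sub_add_cancel (hQ.pos n h1), h2]
    rw [e]
    exact h _

theorem mem_rd {hQ : Ex Q} {e : G} : e ∈ Rd Q hQ G ↔ El Q e ∧ ∀ z, El Q z → El Q (e * z) := Iff.rfl

instance rd_normal (hQ : Ex Q) : (Rd Q hQ G).Normal := by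
  refine ⟨?_⟩
  rintro e ⟨h1, h2⟩ g
  refine ⟨h1.conj g, fun z hz => ?_⟩
  have h3 := (h2 (g⁻¹ * z * g) (hz.conj' g)).conj g
  have h4 : g * (e * (g⁻¹ * z * g)) * g⁻¹ = g * e * g⁻¹ * z := by group
  rwa [h4] at h3

theorem rd_el {hQ : Ex Q} {e : G} (h : e ∈ Rd Q hQ G) : El Q e := h.1

theorem le_rd (hQ : Ex Q) (N : Subgroup G) [N.Normal] (h : ∀ x ∈ N, El Q x) : N ≤ Rd Q hQ G := by
  intro e he
  refine ⟨h e he, fun z hz => el_of_mk hQ h ?_⟩
  rw [QuotientGroup.mk_mul, (QuotientGroup.eq_one_iff e).2 he, one_mul]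
  exact hz.map (QuotientGroup.mk' N)

theorem rd_quot (hQ : Ex Q) : Rd Q hQ (G ⧸ Rd Q hQ G) = ⊥ := by
  rw [eq_bot_iff]
  intro e he
  obtain ⟨e, rfl⟩ := QuotientGroup.mk_surjective e
  rw [Subgroup.mem_bot, QuotientGroup.eq_one_iff]
  have hR : ∀ x ∈ Rd Q hQ G, El Q x := fun x hx => hx.1
  refine ⟨el_of_mk hQ hR he.1, fun z hz => el_of_mk hQ hR ?_⟩
  rw [QuotientGroup.mk_mul]
  exact he.2 _ (hz.map (QuotientGroup.mk' _))

/-! ## Primes -/

/-- powers of `r` -/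
def PR (r : ℕ) (n : ℕ) : Prop := ∃ k, n = r ^ k

/-- numbers prime to `r` -/
def PR' (r : ℕ) (n : ℕ) : Prop := ¬ r ∣ n

variable {r : ℕ}

theorem exPR (hr : r.Prime) : Ex (PR r) where
  one := ⟨0, (pow_zero r).symm⟩
  mul := by
    rintro _ _ ⟨a, rfl⟩ ⟨b, rfl⟩
    exact ⟨a + b, (pow_add r a b).symm⟩
  pos := by
    rintro _ ⟨a, rfl⟩
    exact pow_pos hr.pos a

theorem exPR' (hr : r.Prime) : Ex (PR' r) where
  one := fun h => hr.one_lt.ne' (Nat.dvd_one.1 h)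
  mul := fun a b ha hb h => by
    rcases (Nat.Prime.dvd_mul hr).1 h with h | h
    · exact ha h
    · exact hb h
  pos := fun a ha => Nat.pos_of_ne_zero fun h => ha (h ▸ dvd_zero r)

theorem el_iff {x : G} : El (PR r) x ↔ ∃ k, x ^ r ^ k = 1 :=
  ⟨fun ⟨_, ⟨k, hk⟩, h⟩ => ⟨k, hk ▸ h⟩, fun ⟨k, hk⟩ => ⟨_, ⟨k, rfl⟩, hk⟩⟩

theorem eq_one (hr : r.Prime) {x : G} (h1 : El (PR r) x) (h2 : El (PR' r) x) : x = 1 := by
  obtain ⟨_, ⟨k, rfl⟩, h3⟩ := h1
  obtain ⟨m, hm, h4⟩ := h2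
  have h5 := Nat.dvd_gcd (orderOf_dvd_of_pow_eq_one h3) (orderOf_dvd_of_pow_eq_one h4)
  have h6 : Nat.Coprime (r ^ k) m := Nat.Coprime.pow_left _ ((Nat.Prime.coprime_iff_not_dvd hr).2 hm)
  rw [h6, Nat.dvd_one] at h5
  exact orderOf_eq_one_iff.1 h5

/-- the parts of an element of finite order -/
theorem parts (hr : r.Prime) {x : G} (hx : IsOfFinOrder x) : ∃ a b : ℕ,
    El (PR r) (x ^ a) ∧ El (PR' r) (x ^ b) ∧ x ^ a * x ^ b = x ∧
    (∀ {H : Type u} [Group H] (h : H), h ^ orderOf x = 1 → El (PR r) h → h ^ a = h ∧ h ^ b = 1) ∧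
    (∀ {H : Type u} [Group H] (h : H), h ^ orderOf x = 1 → El (PR' r) h → h ^ b = h ∧ h ^ a = 1) := by
  obtain ⟨k, m, hm, e⟩ := Nat.exists_eq_pow_mul_and_not_dvd hx.orderOf_pos.ne' r hr.ne_one
  have hco : Nat.Coprime (r ^ k) m := Nat.Coprime.pow_left _ ((Nat.Prime.coprime_iff_not_dvd hr).2 hm)
  obtain ⟨a, ha1, ha2⟩ := Nat.chineseRemainder hco 1 0
  obtain ⟨b, hb1, hb2⟩ := Nat.chineseRemainder hco 0 1
  have hx0 : x ^ (r ^ k * m) = 1 := by rw [← e]; exact pow_orderOf_eq_one x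
  have hma : m ∣ a := (Nat.modEq_zero_iff_dvd).1 ha2
  have hrb : r ^ k ∣ b := (Nat.modEq_zero_iff_dvd).1 hb1
  have key : ∀ {H : Type u} [Group H] (h : H), h ^ orderOf x = 1 → El (PR r) h →
      h ^ r ^ k = 1 := by
    intro H _ h h0 h1
    refine eq_one hr (h1.pow _) ⟨m, hm, ?_⟩
    rw [← pow_mul, ← e, h0]
  have key' : ∀ {H : Type u} [Group H] (h : H), h ^ orderOf x = 1 → El (PR' r) h → h ^ m = 1 := by
    intro H _ h h0 h1
    refine eq_one hr ⟨r ^ k, ⟨k, rfl⟩, ?_⟩ (h1.pow _)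
    rw [← pow_mul, mul_comm, ← e, h0]
  refine ⟨a, b, ⟨r ^ k, ⟨k, rfl⟩, ?_⟩, ⟨m, hm, ?_⟩, ?_, ?_, ?_⟩
  · obtain ⟨c, hc⟩ := hma
    rw [← pow_mul, hc, show m * c * r ^ k = r ^ k * m * c by ring, pow_mul, hx0, one_pow]
  · obtain ⟨c, hc⟩ := hrb
    rw [← pow_mul, hc, show r ^ k * c * m = r ^ k * m * c by ring, pow_mul, hx0, one_pow]
  · have h4 : x ^ (a + b) = x ^ 1 := by
      rw [pow_eq_pow_iff_modEq]
      have h5 : a + b ≡ 1 [MOD r ^ k * m] := by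
        rw [← Nat.modEq_and_modEq_iff_modEq_mul hco]
        exact ⟨by simpa using ha1.add hb1, by simpa using ha2.add hb2⟩
      rw [e]
      exact h5
    rw [← pow_add, h4, pow_one]
  · intro H _ h h0 h1
    have h1 := key h h0 h1
    refine ⟨?_, ?_⟩
    · have h4 : h ^ a = h ^ 1 := by
        rw [pow_eq_pow_iff_modEq]
        exact ha1.of_dvd (orderOf_dvd_of_pow_eq_one h1)
      rw [h4, pow_one]
    · obtain ⟨c, hc⟩ := hrb
      rw [hc, pow_mul, h1, one_pow]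
  · intro H _ h h0 h1
    have h1 := key' h h0 h1
    refine ⟨?_, ?_⟩
    · have h4 : h ^ b = h ^ 1 := by
        rw [pow_eq_pow_iff_modEq]
        exact hb2.of_dvd (orderOf_dvd_of_pow_eq_one h1)
      rw [h4, pow_one]
    · obtain ⟨c, hc⟩ := hma
      rw [hc, pow_mul, h1, one_pow]

theorem per_quot (hG : ∀ x : G, IsOfFinOrder x) (N : Subgroup G) [N.Normal] (x : G ⧸ N) :
    IsOfFinOrder x := by
  obtain ⟨g, rfl⟩ := QuotientGroup.mk_surjective x
  exact (QuotientGroup.mk' N).isOfFinOrder (hG g)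

theorem per_sub (hG : ∀ x : G, IsOfFinOrder x) (K : Subgroup G) (x : K) : IsOfFinOrder x := by
  have h := hG (x : G)
  rw [isOfFinOrder_iff_pow_eq_one] at h ⊢
  obtain ⟨n, h1, h2⟩ := h
  exact ⟨n, h1, Subtype.ext (by rw [Subgroup.coe_pow, h2, Subgroup.coe_one])⟩

/-! ## `O_{r'}` and `O_{r',r}` -/

/-- the largest normal `r'`-subgroup -/
abbrev O1 (hr : r.Prime) (G : Type u) [Group G] : Subgroup G := Rd (PR' r) (exPR' hr) G

/-- the largest normal `r`-subgroup -/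
abbrev Or (hr : r.Prime) (G : Type u) [Group G] : Subgroup G := Rd (PR r) (exPR hr) G

/-- the second term of the upper `r'r`-series -/
def O2 (hr : r.Prime) (G : Type u) [Group G] : Subgroup G :=
  (Or hr (G ⧸ O1 hr G)).comap (QuotientGroup.mk' (O1 hr G))

instance o2_normal (hr : r.Prime) : (O2 hr G).Normal := by
  unfold O2
  infer_instance

theorem mem_o2 {hr : r.Prime} {x : G} : x ∈ O2 hr G ↔ (x : G ⧸ O1 hr G) ∈ Or hr (G ⧸ O1 hr G) :=
  Iff.rfl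

theorem o1_le_o2 (hr : r.Prime) : O1 hr G ≤ O2 hr G := by
  intro x hx
  rw [mem_o2, (QuotientGroup.eq_one_iff x).2 hx]
  exact one_mem _

/-- a normal `r'`-by-`r` subgroup lies in `O2` -/
theorem le_o2 (hr : r.Prime) (A B : Subgroup G) [A.Normal] [B.Normal]
    (hA : ∀ x ∈ A, El (PR' r) x) (hB : ∀ x ∈ B, ∃ k : ℕ, x ^ r ^ k ∈ A) : B ≤ O2 hr G := by
  intro x hx
  rw [mem_o2]
  have h1 : A ≤ O1 hr G := le_rd _ A hA
  have h2 : (B.map (QuotientGroup.mk' (O1 hr G))).Normal :=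
    Subgroup.Normal.map inferInstance _ (QuotientGroup.mk'_surjective _)
  refine le_rd (exPR hr) (B.map (QuotientGroup.mk' (O1 hr G))) ?_ ⟨x, hx, rfl⟩
  rintro _ ⟨y, hy, rfl⟩
  obtain ⟨k, hk⟩ := hB y hy
  refine ⟨r ^ k, ⟨k, rfl⟩, ?_⟩
  rw [← map_pow]
  exact (QuotientGroup.eq_one_iff _).2 (h1 hk)

/-- elements of `O2` and `r`-elements -/
theorem mk_eq (hr : r.Prime) {s t : G} (hs : s ∈ O2 hr G) (ht : El (PR r) t)
    (h : El (PR' r) (s⁻¹ * t)) : (s : G ⧸ O1 hr G) = t := by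
  have h1 : El (PR r) ((s : G ⧸ O1 hr G)⁻¹ * t) :=
    (inv_mem (mem_o2.1 hs)).2 _ (ht.map (QuotientGroup.mk' _))
  have h2 := eq_one hr h1 (h.map (QuotientGroup.mk' _))
  exact inv_mul_eq_one.1 h2

theorem el_of_mk_eq (hr : r.Prime) {s t : G} (h : (s : G ⧸ O1 hr G) = t) :
    El (PR' r) (s⁻¹ * t) := rd_el (QuotientGroup.eq.1 h)

/-- abelian groups without `r'`-elements -/
theorem ab_el (hr : r.Prime) (hG : ∀ x : G, IsOfFinOrder x) (hc : ∀ x y : G, x * y = y * x)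
    (h : O1 hr G = ⊥) (x : G) : El (PR r) x := by
  obtain ⟨a, b, h1, h2, h3, -⟩ := parts hr (hG x)
  have h4 : x ^ b ∈ O1 hr G := by
    refine ⟨h2, fun z hz => ?_⟩
    obtain ⟨m, hm, hm'⟩ := h2
    obtain ⟨n, hn, hn'⟩ := hz
    refine ⟨m * n, (exPR' hr).mul _ _ hm hn, ?_⟩
    have hcm : Commute (x ^ b) z := hc _ _
    rw [hcm.mul_pow, pow_mul, hm', one_pow, one_mul, mul_comm m n, pow_mul, hn', one_pow]
  rw [h, Subgroup.mem_bot] at h4
  rw [h4, mul_one] at h3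
  rwa [h3] at h1

/-- a group generated by `s`, `y` which commute modulo `O1` is an `r`-group modulo `O1` -/
theorem all_el (hr : r.Prime) (hG : ∀ x : G, IsOfFinOrder x) {s y : G}
    (hgen : Subgroup.closure {s, y} = ⊤)
    (hc : (s : G ⧸ O1 hr G) * y = y * s) (x : G ⧸ O1 hr G) : El (PR r) x := by
  refine ab_el hr (per_quot hG _) ?_ (rd_quot _) x
  have h1 : Subgroup.closure ({(s : G ⧸ O1 hr G), (y : G ⧸ O1 hr G)} : Set _) = ⊤ := by
    have h2 := congrArg (Subgroup.map (QuotientGroup.mk' (O1 hr G))) hgen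
    rw [MonoidHom.map_closure, Set.image_pair, ← MonoidHom.range_eq_map,
      QuotientGroup.range_mk'] at h2
    exact h2
  have h3 : ∀ a ∈ ({(s : G ⧸ O1 hr G), (y : G ⧸ O1 hr G)} : Set _),
      ∀ b ∈ ({(s : G ⧸ O1 hr G), (y : G ⧸ O1 hr G)} : Set _), a * b = b * a := by
    rintro a (rfl | rfl) b (rfl | rfl)
    · rfl
    · exact hc
    · exact hc.symm
    · rfl
  have h4 := Subgroup.isMulCommutative_closure h3
  intro u v
  have hu : u ∈ Subgroup.closure ({(s : G ⧸ O1 hr G), (y : G ⧸ O1 hr G)} : Set _) := by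
    rw [h1]; trivial
  have hv : v ∈ Subgroup.closure ({(s : G ⧸ O1 hr G), (y : G ⧸ O1 hr G)} : Set _) := by
    rw [h1]; trivial
  have h5 := h4.is_comm.comm ⟨u, hu⟩ ⟨v, hv⟩
  exact congrArg Subtype.val h5

end Run7.h806.RL
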