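import Mathlib
import Pool.Agent.Run7.h806.RL.Elt

set_option autoImplicit false

/-!
# Two lemmas on finite groups
-/

namespace Run7.h806.RL

universe u v

variable {r : ℕ} {F : Type u} [Group F]

theorem zp {x : F} (hx : El (PR r) x) : IsPGroup r (Subgroup.zpowers x) := by
  obtain ⟨k, hk⟩ := el_iff.1 hx
  rintro ⟨y, hy⟩
  obtain ⟨i, rfl⟩ := Subgroup.mem_zpowers_iff.1 hy
  refine ⟨k, Subtype.ext ?_⟩
  rw [Subgroup.coe_pow, Subgroup.coe_one]
  show (x ^ i) ^ r ^ k = 1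
  rw [← zpow_natCast, ← zpow_mul, mul_comm, zpow_mul, zpow_natCast, hk, one_zpow]

theorem in_syl (hr : r.Prime) [Finite F] {x : F} (hx : El (PR r) x) :
    ∃ P : Sylow r F, x ∈ P := by
  have : Fact r.Prime := ⟨hr⟩
  obtain ⟨P, hP⟩ := (zp hx).exists_le_sylow
  exact ⟨P, hP (Subgroup.mem_zpowers x)⟩

theorem syl_el {P : Sylow r F} {x : F} (hx : x ∈ P) : El (PR r) x := by
  obtain ⟨k, hk⟩ := P.isPGroup' ⟨x, hx⟩
  exact el_iff.2 ⟨k, congrArg Subtype.val hk⟩

/-- `r`-elements with the same image modulo a normal `r'`-subgroup are conjugate -/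
theorem conj_lem (hr : r.Prime) [Finite F] {t t' : F} (ht : El (PR r) t) (ht' : El (PR r) t')
    (h : (t : F ⧸ O1 hr F) = t') : ∃ g : F, g * t' * g⁻¹ = t := by
  have : Fact r.Prime := ⟨hr⟩
  let M : Subgroup F := (Subgroup.zpowers (t : F ⧸ O1 hr F)).comap (QuotientGroup.mk' (O1 hr F))
  have hM : ∀ x, x ∈ M ↔ (x : F ⧸ O1 hr F) ∈ Subgroup.zpowers (t : F ⧸ O1 hr F) := fun x => Iff.rfl
  have h1 : t ∈ M := (hM _).2 (Subgroup.mem_zpowers _)
  have h2 : t' ∈ M := by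
    rw [hM, ← h]
    exact Subgroup.mem_zpowers _
  obtain ⟨P, hP⟩ := in_syl (F := M) (x := ⟨t, h1⟩) hr (el_sub.2 ht)
  obtain ⟨P', hP'⟩ := in_syl (F := M) (x := ⟨t', h2⟩) hr (el_sub.2 ht')
  obtain ⟨g, hg⟩ := MulAction.exists_smul_eq M P' P
  refine ⟨g, ?_⟩
  have h3 : g * ⟨t', h2⟩ * g⁻¹ ∈ P := by
    rw [← hg, Sylow.smul_def, ← SetLike.mem_coe]
    exact ⟨_, hP', rfl⟩
  have h4 : g * ⟨t', h2⟩ * g⁻¹ * (⟨t, h1⟩ : M)⁻¹ ∈ P := mul_mem h3 (inv_mem hP)
  have h5 : El (PR r) ((g : F) * t' * (g : F)⁻¹ * t⁻¹) := (syl_el h4).map M.subtype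
  have h6 : (g : F) * t' * (g : F)⁻¹ * t⁻¹ ∈ O1 hr F := by
    rw [← QuotientGroup.eq_one_iff]
    have h7 := (hM _).1 g.2
    obtain ⟨i, hi⟩ := Subgroup.mem_zpowers_iff.1 h7
    rw [QuotientGroup.mk_mul, QuotientGroup.mk_mul, QuotientGroup.mk_mul, ← h,
      QuotientGroup.mk_inv, QuotientGroup.mk_inv, ← hi, mul_inv_eq_one, mul_inv_eq_iff_eq_mul]
    exact ((Commute.refl (t : F ⧸ O1 hr F)).zpow_left i).eq
  have h7 := eq_one hr h5 (rd_el h6)
  exact mul_inv_eq_one.1 h7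

/-- an `r`-element of `O2` which centralises `O1` is in `Or` -/
theorem d_lem (hr : r.Prime) [Finite F] {s : F} (hs : El (PR r) s) (h2 : s ∈ O2 hr F)
    (hc : ∀ x ∈ O1 hr F, x * s = s * x) : s ∈ Or hr F := by
  have : Fact r.Prime := ⟨hr⟩
  let D : Subgroup F := O2 hr F ⊓ Subgroup.centralizer (O1 hr F : Set F)
  have hDn : D.Normal := by
    have : (Subgroup.centralizer (O1 hr F : Set F)).Normal := inferInstance
    infer_instance
  have hsD : s ∈ D := ⟨h2, Subgroup.mem_centralizer_iff.2 fun x hx => hc x hx⟩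
  have hnil : Group.IsNilpotent D := by
    let f : D →* F ⧸ O1 hr F := (QuotientGroup.mk' (O1 hr F)).comp D.subtype
    have hk : f.ker ≤ Subgroup.center D := by
      intro x hx
      rw [MonoidHom.mem_ker] at hx
      have hx' : (x : F) ∈ O1 hr F := (QuotientGroup.eq_one_iff _).1 hx
      rw [Subgroup.mem_center_iff]
      intro y
      refine Subtype.ext ?_
      exact ((Subgroup.mem_centralizer_iff.1 y.2.2) _ hx').symm
    have hP : IsPGroup r f.range := by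
      rintro ⟨_, ⟨y, rfl⟩⟩
      obtain ⟨k, hk⟩ := el_iff.1 (rd_el (mem_o2.1 y.2.1))
      exact ⟨k, Subtype.ext hk⟩
    have h3 : Group.IsNilpotent f.range := hP.isNilpotent
    exact Subgroup.isNilpotent_of_ker_le_center f.rangeRestrict (by rwa [f.ker_rangeRestrict])
  obtain ⟨P, hP⟩ := in_syl (F := D) (x := ⟨s, hsD⟩) hr (el_sub.2 hs)
  have hPn : (P : Subgroup D).Normal :=
    (((Group.isNilpotent_of_finite_tfae (G := D)).out 0 3 rfl rfl).1 hnil) r inferInstance P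
  have hch : (P : Subgroup D).Characteristic := P.characteristic_of_normal hPn
  have hn : ((P : Subgroup D).map D.subtype).Normal := inferInstance
  refine le_rd (exPR hr) ((P : Subgroup D).map D.subtype) ?_ ⟨⟨s, hsD⟩, hP, rfl⟩
  rintro _ ⟨y, hy, rfl⟩
  exact (syl_el hy).map D.subtype

end Run7.h806.RL
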