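import Mathlib
import Pool.Agent.Run7.h806.RL.Fin

set_option autoImplicit false

/-!
# The main argument

A set `S` of `r`-elements of a periodic group, closed under conjugation, is contained in the largest
normal `r`-subgroup if `O_{r'}(G) = 1` and certain subgroups with two or three generators behave well.
-/

namespace Run7.h806.RL

universe u v

variable {r : ℕ} {G : Type u} [Group G]

/-- `s⁻¹ t` is an `r'`-element -/
def Rel (r : ℕ) (s t : G) : Prop := El (PR' r) (s⁻¹ * t)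

theorem Rel.refl (hr : r.Prime) (s : G) : Rel r s s := by
  unfold Rel
  rw [inv_mul_cancel]
  exact el_one (exPR' hr)

theorem Rel.symm {s t : G} (h : Rel r s t) : Rel r t s := by
  have := El.inv h
  rwa [mul_inv_rev, inv_inv] at this

theorem Rel.conj {s t : G} (h : Rel r s t) (g : G) : Rel r (g * s * g⁻¹) (g * t * g⁻¹) := by
  have := El.conj h g
  have e : g * (s⁻¹ * t) * g⁻¹ = (g * s * g⁻¹)⁻¹ * (g * t * g⁻¹) := by group
  rwa [e] at this

/-- the data of the main theorem -/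
structure Dat (hr : r.Prime) (G : Type u) [Group G] (S : Set G) : Prop where
  per : ∀ x : G, IsOfFinOrder x
  el : ∀ s ∈ S, El (PR r) s
  cj : ∀ s ∈ S, ∀ g : G, g * s * g⁻¹ ∈ S
  ha : ∀ s ∈ S, ∀ g : G, Finite (Subgroup.closure {s, g}) ∧
    (⟨s, Subgroup.subset_closure (Set.mem_insert s {g})⟩ : Subgroup.closure {s, g}) ∈
      O2 hr (Subgroup.closure {s, g})
  tr : ∀ s ∈ S, ∀ t ∈ S, ∀ u ∈ S, Rel r s t → Rel r t u → Rel r s u
  hb : ∀ s ∈ S, ∀ t ∈ S, Rel r s t → ∀ u ∈ S, Rel r u ((s⁻¹ * t)⁻¹ * u * (s⁻¹ * t))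

namespace Dat

variable {hr : r.Prime} {S : Set G}

theorem cj' (D : Dat hr G S) {s : G} (hs : s ∈ S) (g : G) : g⁻¹ * s * g ∈ S := by
  have := D.cj s hs g⁻¹
  rwa [inv_inv] at this

/-- the elements which fix the classes -/
def K (D : Dat hr G S) : Subgroup G where
  carrier := {g | ∀ u ∈ S, Rel r u (g⁻¹ * u * g)}
  one_mem' := fun u _ => by
    rw [inv_one, one_mul, mul_one]
    exact Rel.refl hr u
  mul_mem' := by
    intro g h hg hh u hu
    have e : (g * h)⁻¹ * u * (g * h) = h⁻¹ * (g⁻¹ * u * g) * h := by group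
    rw [e]
    exact D.tr _ hu _ (D.cj' hu g) _ (D.cj' (D.cj' hu g) h) (hg u hu) (hh _ (D.cj' hu g))
  inv_mem' := by
    intro g hg u hu
    have h1 := hg _ (D.cj u hu g)
    have e : g⁻¹ * (g * u * g⁻¹) * g = u := by group
    rw [e] at h1
    rw [inv_inv]
    exact h1.symm

theorem mem_K (D : Dat hr G S) {g : G} : g ∈ D.K ↔ ∀ u ∈ S, Rel r u (g⁻¹ * u * g) := Iff.rfl

instance K_normal (D : Dat hr G S) : D.K.Normal := by
  refine ⟨fun g hg h => ?_⟩
  rw [mem_K] at hg ⊢
  intro u hu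
  have h1 := (hg _ (D.cj' hu h)).conj h
  have e1 : h * (h⁻¹ * u * h) * h⁻¹ = u := by group
  have e2 : h * (g⁻¹ * (h⁻¹ * u * h) * g) * h⁻¹ = (h * g * h⁻¹)⁻¹ * u * (h * g * h⁻¹) := by group
  rwa [e1, e2] at h1

theorem gen_top {s g : G} : Subgroup.closure
    {(⟨s, Subgroup.subset_closure (Set.mem_insert s {g})⟩ : Subgroup.closure {s, g}),
      (⟨g, Subgroup.subset_closure (Set.mem_insert_of_mem s rfl)⟩ : Subgroup.closure {s, g})} = ⊤ := by
  have h := Subgroup.closure_closure_coe_preimage (k := ({s, g} : Set G))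
  have e : (Subtype.val ⁻¹' {s, g} : Set (Subgroup.closure ({s, g} : Set G))) =
      {⟨s, Subgroup.subset_closure (Set.mem_insert s {g})⟩,
        ⟨g, Subgroup.subset_closure (Set.mem_insert_of_mem s rfl)⟩} := by
    ext x
    simp only [Set.mem_preimage, Set.mem_insert_iff, Set.mem_singleton_iff]
    constructor
    · rintro (h | h)
      · exact Or.inl (Subtype.ext h)
      · exact Or.inr (Subtype.ext h)
    · rintro (h | h)
      · exact Or.inl (congrArg Subtype.val h)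
      · exact Or.inr (congrArg Subtype.val h)
  rw [← e]
  exact h

/-- `r'`-elements of `K` -/
theorem stepA (D : Dat hr G S) {s z : G} (hs : s ∈ S) (hz : z ∈ D.K) (hz' : El (PR' r) z) :
    (⟨z, Subgroup.subset_closure (Set.mem_insert_of_mem s rfl)⟩ : Subgroup.closure {s, z}) ∈
      O1 hr (Subgroup.closure {s, z}) := by
  set E := Subgroup.closure ({s, z} : Set G) with hE
  obtain ⟨hf, h2⟩ := D.ha s hs z
  have hp : ∀ x : E, IsOfFinOrder x := per_sub D.per _
  set s' : E := ⟨s, Subgroup.subset_closure (Set.mem_insert s {z})⟩ with hs'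
  set z' : E := ⟨z, Subgroup.subset_closure (Set.mem_insert_of_mem s rfl)⟩ with hz1
  have hel : El (PR r) (z'⁻¹ * s' * z') := by
    have h3 : El (PR r) s' := el_sub.2 (D.el s hs)
    exact h3.conj' z'
  have h3 : El (PR' r) (s'⁻¹ * (z'⁻¹ * s' * z')) := el_sub.2 (hz s hs)
  have h4 := mk_eq hr h2 hel h3
  have h5 : (s' : E ⧸ O1 hr E) * z' = z' * s' := by
    have h6 : (z' : E ⧸ O1 hr E) * s' = z' * ((z'⁻¹ * s' * z' : E) : E ⧸ O1 hr E) := by rw [← h4]
    rw [h6, ← QuotientGroup.mk_mul, ← QuotientGroup.mk_mul]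
    congr 1
    group
  have h6 := all_el hr hp gen_top h5 (z' : E ⧸ O1 hr E)
  have h7 : El (PR' r) (z' : E ⧸ O1 hr E) := by
    have h8 : El (PR' r) z' := el_sub.2 hz'
    exact h8.map (QuotientGroup.mk' _)
  exact (QuotientGroup.eq_one_iff _).1 (eq_one hr h6 h7)

/-- products with `r'`-elements of `K` -/
theorem stepB (D : Dat hr G S) {s t z : G} (hs : s ∈ S) (ht : t ∈ S) (hst : Rel r s t)
    (hz : z ∈ D.K) (hz' : El (PR' r) z) : El (PR' r) (s⁻¹ * t * z) := by
  set y := t * z with hy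
  obtain ⟨a, b, h1, h2, h3, h4, -⟩ := parts hr (D.per y)
  have h0 : y ^ orderOf y = 1 := pow_orderOf_eq_one y
  -- the `r`-part of `y` is conjugate to `t`
  have hya : y ^ a ∈ S ∧ Rel r t (y ^ a) := by
    have hA := D.stepA ht hz hz'
    obtain ⟨hf, -⟩ := D.ha t ht z
    set F := Subgroup.closure ({t, z} : Set G) with hF
    set t' : F := ⟨t, Subgroup.subset_closure (Set.mem_insert t {z})⟩ with ht'
    set z' : F := ⟨z, Subgroup.subset_closure (Set.mem_insert_of_mem t rfl)⟩ with hz1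
    have hel : El (PR r) t' := el_sub.2 (D.el t ht)
    have hc : ((t' * z' : F) : F ⧸ O1 hr F) = t' := by
      rw [QuotientGroup.mk_mul, (QuotientGroup.eq_one_iff z').2 hA, mul_one]
    have hc2 : (((t' * z') ^ a : F) : F ⧸ O1 hr F) = t' := by
      rw [QuotientGroup.mk_pow, hc]
      refine (h4 (t' : F ⧸ O1 hr F) ?_ (hel.map (QuotientGroup.mk' _))).1
      rw [← hc, ← QuotientGroup.mk_pow]
      have h5 : (t' * z') ^ orderOf y = 1 := Subtype.ext h0
      rw [h5, QuotientGroup.mk_one]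
    have hel2 : El (PR r) ((t' * z') ^ a) := el_sub.2 h1
    obtain ⟨g, hg⟩ := conj_lem hr hel hel2 hc2.symm
    constructor
    · have h6 : (g : G)⁻¹ * t * g = y ^ a := by
        have h7 := congrArg Subtype.val hg
        have h8 : (g : G) * y ^ a * (g : G)⁻¹ = t := h7
        rw [← h8]
        group
      rw [← h6]
      exact D.cj' ht _
    · exact el_sub.1 (el_of_mk_eq hr hc2.symm)
  have hsy : Rel r s (y ^ a) := D.tr s hs t ht _ hya.1 hst hya.2
  obtain ⟨hf, hs2⟩ := D.ha s hs y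
  set E := Subgroup.closure ({s, y} : Set G) with hE
  have hp : ∀ x : E, IsOfFinOrder x := per_sub D.per _
  set s' : E := ⟨s, Subgroup.subset_closure (Set.mem_insert s {y})⟩ with hs'
  set y' : E := ⟨y, Subgroup.subset_closure (Set.mem_insert_of_mem s rfl)⟩ with hy1
  have hel : El (PR r) (y' ^ a) := el_sub.2 h1
  have h5 : El (PR' r) (s'⁻¹ * y' ^ a) := el_sub.2 hsy
  have h6 := mk_eq hr hs2 hel h5
  have h7 : (s' : E ⧸ O1 hr E) * y' = y' * s' := by
    rw [h6, QuotientGroup.mk_pow]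
    exact ((Commute.refl (y' : E ⧸ O1 hr E)).pow_left a).eq
  have h8 := all_el hr hp gen_top h7 (y' : E ⧸ O1 hr E)
  have h9 : (y' : E ⧸ O1 hr E) ^ a = y' := by
    refine (h4 (y' : E ⧸ O1 hr E) ?_ h8).1
    rw [← QuotientGroup.mk_pow]
    have h10 : y' ^ orderOf y = 1 := Subtype.ext h0
    rw [h10, QuotientGroup.mk_one]
  rw [QuotientGroup.mk_pow, h9] at h6
  have h10 := el_sub.1 (el_of_mk_eq hr h6)
  have h11 : s⁻¹ * t * z = s⁻¹ * y := by rw [hy, mul_assoc]
  rw [h11]
  exact h10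

/-- related elements of `S` are equal -/
theorem stepC (D : Dat hr G S) (h1 : O1 hr G = ⊥) {s t : G} (hs : s ∈ S) (ht : t ∈ S)
    (hst : Rel r s t) : s = t := by
  have he : s⁻¹ * t ∈ D.K := D.hb s hs t ht hst
  let N : Subgroup G := (Rd (PR' r) (exPR' hr) D.K).map D.K.subtype
  have hN : N.Normal := by
    refine ⟨?_⟩
    rintro _ ⟨x, hx, rfl⟩ g
    have h2 : g * (x : G) * g⁻¹ ∈ D.K := (inferInstance : D.K.Normal).conj_mem _ x.2 g
    refine ⟨⟨_, h2⟩, ⟨?_, ?_⟩, rfl⟩
    · have h3 : El (PR' r) (x : G) := el_sub.1 hx.1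
      exact el_sub.2 (h3.conj g)
    · intro z hz
      have h3 : g⁻¹ * (z : G) * g ∈ D.K := by
        have := (inferInstance : D.K.Normal).conj_mem _ z.2 g⁻¹
        rwa [inv_inv] at this
      have h4 : El (PR' r) ((x : G) * (g⁻¹ * (z : G) * g)) := by
        have h5 : El (PR' r) (z : G) := el_sub.1 hz
        have h6 := hx.2 ⟨_, h3⟩ (el_sub.2 (h5.conj' g))
        exact el_sub.1 h6
      refine el_sub.2 ?_
      have h5 := h4.conj g
      have e : g * ((x : G) * (g⁻¹ * (z : G) * g)) * g⁻¹ = g * (x : G) * g⁻¹ * z := by group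
      rwa [e] at h5
  have h2 : N ≤ O1 hr G := by
    refine le_rd _ N ?_
    rintro _ ⟨x, hx, rfl⟩
    exact el_sub.1 hx.1
  have h3 : s⁻¹ * t ∈ N := by
    refine ⟨⟨_, he⟩, ⟨el_sub.2 hst, fun z hz => el_sub.2 ?_⟩, rfl⟩
    exact D.stepB hs ht hst z.2 (el_sub.1 hz)
  have h4 := h2 h3
  rw [h1, Subgroup.mem_bot] at h4
  exact inv_mul_eq_one.1 h4

/-- the main theorem -/
theorem le_or (D : Dat hr G S) (h1 : O1 hr G = ⊥) : S ⊆ Or hr G := by
  intro s hs
  refine ⟨D.el s hs, fun z hz => ?_⟩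
  obtain ⟨hf, h2⟩ := D.ha s hs z
  set E := Subgroup.closure ({s, z} : Set G) with hE
  set s' : E := ⟨s, Subgroup.subset_closure (Set.mem_insert s {z})⟩ with hs'
  set z' : E := ⟨z, Subgroup.subset_closure (Set.mem_insert_of_mem s rfl)⟩ with hz1
  have h3 : El (PR r) s' := el_sub.2 (D.el s hs)
  have h4 : ∀ x ∈ O1 hr E, x * s' = s' * x := by
    intro x hx
    have h5 : s'⁻¹ * (x * s' * x⁻¹) ∈ O1 hr E := by
      have e : s'⁻¹ * (x * s' * x⁻¹) = s'⁻¹ * x * s' * x⁻¹ := by group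
      rw [e]
      refine mul_mem ?_ (inv_mem hx)
      have := (inferInstance : (O1 hr E).Normal).conj_mem _ hx s'⁻¹
      rwa [inv_inv] at this
    have h6 : Rel r s ((x : G) * s * (x : G)⁻¹) := el_sub.1 (rd_el h5)
    have h7 := D.stepC h1 hs (D.cj s hs x) h6
    refine Subtype.ext ?_
    show (x : G) * s = s * x
    exact (eq_mul_inv_iff_mul_eq.1 h7).symm
  have h5 := d_lem hr h3 h2 h4
  have h6 : El (PR r) (s' * z') := h5.2 z' (el_sub.2 hz)
  exact el_sub.1 h6

end Dat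

end Run7.h806.RL
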