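import Mathlib
import Pool.Agent.Run7.h806.RL.Core

set_option autoImplicit false

/-!
# Images, subgroups, and the theorem without `O_{r'}(G) = 1`
-/

namespace Run7.h806.RL

universe u v

variable {r : ℕ} {G : Type u} [Group G] {H : Type v} [Group H] {hr : r.Prime}

theorem o2_pow {x : G} (hx : x ∈ O2 hr G) : ∃ k : ℕ, x ^ r ^ k ∈ O1 hr G := by
  obtain ⟨k, hk⟩ := el_iff.1 (rd_el (mem_o2.1 hx))
  refine ⟨k, ?_⟩
  rwa [← QuotientGroup.mk_pow, QuotientGroup.eq_one_iff] at hk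

theorem map_o2 {f : G →* H} (hf : Function.Surjective f) {x : G} (hx : x ∈ O2 hr G) :
    f x ∈ O2 hr H := by
  have h1 : ((O1 hr G).map f).Normal := Subgroup.Normal.map inferInstance f hf
  have h2 : ((O2 hr G).map f).Normal := Subgroup.Normal.map inferInstance f hf
  refine le_o2 hr ((O1 hr G).map f) ((O2 hr G).map f) ?_ ?_ ⟨x, hx, rfl⟩
  · rintro _ ⟨y, hy, rfl⟩
    exact (rd_el hy).map f
  · rintro _ ⟨y, hy, rfl⟩
    obtain ⟨k, hk⟩ := o2_pow hy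
    exact ⟨k, y ^ r ^ k, hk, by rw [map_pow]⟩

theorem comap_o2 {f : G →* H} (hf : Function.Injective f) {x : G} (hx : f x ∈ O2 hr H) :
    x ∈ O2 hr G := by
  refine le_o2 hr ((O1 hr H).comap f) ((O2 hr H).comap f) ?_ ?_ hx
  · intro y hy
    exact El.of_map hf (rd_el (hQ := exPR' hr) hy)
  · intro y hy
    obtain ⟨k, hk⟩ := o2_pow hy
    exact ⟨k, by rw [Subgroup.mem_comap, map_pow]; exact hk⟩

/-- `s` is in `O2` of the subgroup `E` -/
def Ok (hr : r.Prime) (E : Subgroup G) (s : G) : Prop := ∃ h : s ∈ E, (⟨s, h⟩ : E) ∈ O2 hr E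

theorem Ok.map {E : Subgroup G} {s : G} (h : Ok hr E s) (f : G →* H) : Ok hr (E.map f) (f s) := by
  obtain ⟨h1, h2⟩ := h
  exact ⟨Subgroup.mem_map_of_mem f h1, map_o2 (f.subgroupMap_surjective E) h2⟩

theorem Ok.mono {E E' : Subgroup G} {s : G} (h : Ok hr E s) (hE : E' ≤ E) (hs : s ∈ E') :
    Ok hr E' s :=
  ⟨hs, comap_o2 (f := Subgroup.inclusion hE) (Subgroup.inclusion_injective hE) h.2⟩

theorem Ok.of_map {E : Subgroup G} {s : G} {f : G →* H} (hf : Function.Injective f)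
    (h : Ok hr (E.map f) (f s)) : Ok hr E s := by
  obtain ⟨h1, h2⟩ := h
  have hs : s ∈ E := by
    obtain ⟨t, ht, e⟩ := h1
    rwa [← hf e]
  refine ⟨hs, comap_o2 (f := f.subgroupMap E) ?_ h2⟩
  intro a b hab
  exact Subtype.ext (hf (congrArg Subtype.val hab))

theorem finite_map {E : Subgroup G} [Finite E] (f : G →* H) : Finite (E.map f) :=
  Finite.of_surjective _ (f.subgroupMap_surjective E)

theorem closure_map_pair (f : G →* H) (s g : G) :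
    (Subgroup.closure {s, g}).map f = Subgroup.closure {f s, f g} := by
  rw [MonoidHom.map_closure, Set.image_pair]

theorem closure_map_triple (f : G →* H) (s t u : G) :
    (Subgroup.closure {s, t, u}).map f = Subgroup.closure {f s, f t, f u} := by
  rw [MonoidHom.map_closure, Set.image_insert_eq, Set.image_pair]

theorem Dat.ok {S : Set G} (D : Dat hr G S) {s : G} (hs : s ∈ S) (g : G) :
    Finite (Subgroup.closure {s, g}) ∧ Ok hr (Subgroup.closure {s, g}) s :=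
  ⟨(D.ha s hs g).1, _, (D.ha s hs g).2⟩

/-- passage to `G / O1` -/
theorem Dat.quot {S : Set G} (D : Dat hr G S) :
    Dat hr (G ⧸ O1 hr G) (QuotientGroup.mk' (O1 hr G) '' S) := by
  have hrel : ∀ {x : G}, El (PR' r) (x : G ⧸ O1 hr G) → El (PR' r) x := fun h =>
    el_of_mk (exPR' hr) (fun x hx => rd_el hx) h
  refine ⟨per_quot D.per _, ?_, ?_, ?_, ?_, ?_⟩
  · rintro _ ⟨s, hs, rfl⟩
    exact (D.el s hs).map _
  · rintro _ ⟨s, hs, rfl⟩ g
    obtain ⟨g, rfl⟩ := QuotientGroup.mk_surjective g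
    exact ⟨g * s * g⁻¹, D.cj s hs g, rfl⟩
  · rintro _ ⟨s, hs, rfl⟩ g
    obtain ⟨g, rfl⟩ := QuotientGroup.mk_surjective g
    obtain ⟨h1, h2⟩ := D.ok hs g
    have h3 := h2.map (QuotientGroup.mk' (O1 hr G))
    have h4 := finite_map (E := Subgroup.closure {s, g}) (QuotientGroup.mk' (O1 hr G))
    rw [closure_map_pair] at h3 h4
    exact ⟨h4, h3.2⟩
  · rintro _ ⟨s, hs, rfl⟩ _ ⟨t, ht, rfl⟩ _ ⟨u, hu, rfl⟩ h1 h2
    exact (D.tr s hs t ht u hu (hrel h1) (hrel h2)).map (QuotientGroup.mk' (O1 hr G))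
  · rintro _ ⟨s, hs, rfl⟩ _ ⟨t, ht, rfl⟩ h1 _ ⟨u, hu, rfl⟩
    exact (D.hb s hs t ht (hrel h1) u hu).map (QuotientGroup.mk' (O1 hr G))

theorem Dat.le_o2 {S : Set G} (D : Dat hr G S) : S ⊆ O2 hr G := by
  intro s hs
  exact mem_o2.2 (D.quot.le_or (rd_quot _) ⟨s, hs, rfl⟩)

/-- the conditions on three elements from subgroups with three generators -/
theorem dat_of_three {S : Set G} (per : ∀ x : G, IsOfFinOrder x) (el : ∀ s ∈ S, El (PR r) s)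
    (cj : ∀ s ∈ S, ∀ g : G, g * s * g⁻¹ ∈ S)
    (ha : ∀ s ∈ S, ∀ g : G, Finite (Subgroup.closure {s, g}) ∧
      Ok hr (Subgroup.closure {s, g}) s)
    (hc : ∀ s ∈ S, ∀ t ∈ S, ∀ u ∈ S, Ok hr (Subgroup.closure {s, t, u}) s ∧
      Ok hr (Subgroup.closure {s, t, u}) t ∧ Ok hr (Subgroup.closure {s, t, u}) u) :
    Dat hr G S := by
  refine ⟨per, el, cj, fun s hs g => ⟨(ha s hs g).1, (ha s hs g).2.2⟩, ?_, ?_⟩
  · intro s hs t ht u hu h1 h2
    obtain ⟨⟨m1, o1⟩, ⟨m2, o2⟩, ⟨m3, o3⟩⟩ := hc s hs t ht u hu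
    set E := Subgroup.closure ({s, t, u} : Set G) with hE
    have e1 : El (PR r) (⟨t, m2⟩ : E) := el_sub.2 (el t ht)
    have e2 : El (PR r) (⟨u, m3⟩ : E) := el_sub.2 (el u hu)
    have f1 := mk_eq hr o1 e1 (el_sub.2 h1)
    have f2 := mk_eq hr o2 e2 (el_sub.2 h2)
    exact el_sub.1 (el_of_mk_eq hr (f1.trans f2))
  · intro s hs t ht h1 u hu
    obtain ⟨⟨m1, o1⟩, ⟨m2, o2⟩, ⟨m3, o3⟩⟩ := hc s hs t ht u hu
    set E := Subgroup.closure ({s, t, u} : Set G) with hE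
    have e1 : El (PR r) (⟨t, m2⟩ : E) := el_sub.2 (el t ht)
    have f1 := mk_eq hr o1 e1 (el_sub.2 h1)
    have f2 : (⟨s, m1⟩ : E)⁻¹ * ⟨t, m2⟩ ∈ O1 hr E := QuotientGroup.eq.1 f1
    have f3 : ((⟨u, m3⟩ : E) : E ⧸ O1 hr E) =
        (((⟨s, m1⟩ : E)⁻¹ * ⟨t, m2⟩)⁻¹ * ⟨u, m3⟩ * ((⟨s, m1⟩ : E)⁻¹ * ⟨t, m2⟩) : E) := by
      rw [QuotientGroup.mk_mul, QuotientGroup.mk_mul, QuotientGroup.mk_inv,
        (QuotientGroup.eq_one_iff _).2 f2, inv_one, one_mul, mul_one]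
    exact el_sub.1 (el_of_mk_eq hr f3)

/-- the `r`-length of `K` is at most one -/
def RLen (r : ℕ) (K : Type u) [Group K] : Prop := ∃ A B : Subgroup K, A.Normal ∧ B.Normal ∧
  A ≤ B ∧ (∀ x ∈ A, ¬ r ∣ orderOf x) ∧ (∀ x ∈ B, ∃ k : ℕ, x ^ r ^ k ∈ A) ∧
  ∀ x : K, ∃ k : ℕ, ¬ r ∣ k ∧ x ^ k ∈ B

theorem el_order {x : G} (hx : ¬ r ∣ orderOf x) : El (PR' r) x := ⟨_, hx, pow_orderOf_eq_one x⟩

theorem order_el {x : G} (hx : El (PR' r) x) : ¬ r ∣ orderOf x := by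
  obtain ⟨k, hk, h⟩ := hx
  exact fun h1 => hk (h1.trans (orderOf_dvd_of_pow_eq_one h))

theorem RLen.o2 (hr : r.Prime) (h : RLen r G) {s : G} (hs : El (PR r) s) : s ∈ O2 hr G := by
  obtain ⟨A, B, hA, hB, -, h1, h2, h3⟩ := h
  have h4 : B ≤ O2 hr G := RL.le_o2 hr A B (fun x hx => el_order (h1 x hx)) h2
  obtain ⟨k, hk, h5⟩ := h3 s
  obtain ⟨l, hl⟩ := el_iff.1 hs
  have h6 : Nat.Coprime (r ^ l) k := Nat.Coprime.pow_left _ ((Nat.Prime.coprime_iff_not_dvd hr).2 hk)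
  have h7 : ((s : G) : G ⧸ B) = 1 := by
    have h8 : (s : G ⧸ B) ^ r ^ l = 1 := by rw [← QuotientGroup.mk_pow, hl, QuotientGroup.mk_one]
    have h9 : (s : G ⧸ B) ^ k = 1 := by
      rw [← QuotientGroup.mk_pow]
      exact (QuotientGroup.eq_one_iff _).2 h5
    exact eq_one hr ⟨_, ⟨l, rfl⟩, h8⟩ ⟨k, hk, h9⟩
  exact h4 ((QuotientGroup.eq_one_iff _).1 h7)

theorem rlen_of_o2 (hr : r.Prime) (per : ∀ x : G, IsOfFinOrder x)
    (h : ∀ s : G, El (PR r) s → s ∈ O2 hr G) : RLen r G := by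
  refine ⟨O1 hr G, O2 hr G, inferInstance, inferInstance, o1_le_o2 hr,
    fun x hx => order_el (rd_el hx), fun x hx => o2_pow hx, fun x => ?_⟩
  obtain ⟨k, m, hm, e⟩ := Nat.exists_eq_pow_mul_and_not_dvd (per x).orderOf_pos.ne' r hr.ne_one
  refine ⟨m, hm, h _ ⟨r ^ k, ⟨k, rfl⟩, ?_⟩⟩
  rw [← pow_mul, mul_comm, ← e, pow_orderOf_eq_one]

/-- `r`-length at most one is a property of subgroups with two and three generators -/
theorem rlen_local (hr : r.Prime) (per : ∀ x : G, IsOfFinOrder x)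
    (h2 : ∀ x t : G, (∃ k : ℕ, t ^ r ^ k = 1) → Finite (Subgroup.closure {x, t}) ∧
      RLen r (Subgroup.closure {x, t}))
    (h3 : ∀ s t u : G, (∃ k : ℕ, s ^ r ^ k = 1) → (∃ k : ℕ, t ^ r ^ k = 1) →
      (∃ k : ℕ, u ^ r ^ k = 1) → RLen r (Subgroup.closure {s, t, u})) : RLen r G := by
  refine rlen_of_o2 hr per fun s hs => ?_
  refine (dat_of_three (hr := hr) (S := {s | El (PR r) s}) per (fun s hs => hs)
    (fun s hs g => hs.conj g) ?_ ?_).le_o2 hs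
  · intro s hs g
    obtain ⟨h4, h5⟩ := h2 g s (el_iff.1 hs)
    rw [Set.pair_comm] at h4 h5
    exact ⟨h4, Subgroup.subset_closure (Set.mem_insert s {g}), h5.o2 hr (el_sub.2 hs)⟩
  · intro s hs t ht u hu
    have h4 := h3 s t u (el_iff.1 hs) (el_iff.1 ht) (el_iff.1 hu)
    exact ⟨⟨Subgroup.subset_closure (by simp), h4.o2 hr (el_sub.2 hs)⟩,
      ⟨Subgroup.subset_closure (by simp), h4.o2 hr (el_sub.2 ht)⟩,
      ⟨Subgroup.subset_closure (by simp), h4.o2 hr (el_sub.2 hu)⟩⟩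

end Run7.h806.RL
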