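import Mathlib
import Pool.Agent.Run7.h806.RL.Red
import Pool.Agent.TH69.OgC
import Pool.Agent.W629.TwiceLF

set_option autoImplicit false

/-!
# Bounded exponent
-/

namespace Run7.h806.RL

open Pool.Agent.H32BU Pool.Agent.W629
open Pool.Agent.TH69.Od (TT)
open Pool.Agent.TH69.Og (hhBG bsG)

universe u v

variable {r α m : ℕ}

theorem pow_m (hr : r.Prime) {G : Type u} [Group G] {x : G} (hx : El (PR' r) x)
    (h : x ^ (r ^ α * m) = 1) : x ^ m = 1 :=
  eq_one hr ⟨r ^ α, ⟨α, rfl⟩, by rw [← pow_mul, mul_comm, h]⟩ (hx.pow m)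

theorem pow_r (hr : r.Prime) (hm : ¬ r ∣ m) {G : Type u} [Group G] {x : G} (hx : El (PR r) x)
    (h : x ^ (r ^ α * m) = 1) : x ^ r ^ α = 1 :=
  eq_one hr (hx.pow _) ⟨m, hm, by rw [← pow_mul, h]⟩

theorem pos_of (hr : r.Prime) (hm : ¬ r ∣ m) : 0 < r ^ α * m :=
  Nat.mul_pos (pow_pos hr.pos α) (Nat.pos_of_ne_zero fun h => hm (h ▸ dvd_zero r))

theorem per_exp {n : ℕ} (hn : 0 < n) {G : Type u} [Group G] (h : ∀ x : G, x ^ n = 1) (x : G) :
    IsOfFinOrder x := isOfFinOrder_iff_pow_eq_one.2 ⟨n, hn, h x⟩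

/-- terms of the derived series of a finitely generated torsion group have finite index (as in
`Pool.Agent.Helper111.EN.Basic`) -/
theorem derivedSeries_finite_index (G : Type u) [Group G] [hG : Group.FG G]
    (h : ∀ g : G, IsOfFinOrder g) (n : ℕ) : (derivedSeries G n).FiniteIndex := by
  induction n with
  | zero =>
    rw [derivedSeries_zero]
    infer_instance
  | succ n ih =>
    set K := derivedSeries G n with hK
    have hfg : Group.FG K := Subgroup.fg_of_index_ne_zero K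
    have hfgab : Group.FG (Abelianization K) := QuotientGroup.fg _
    have htor : IsMulTorsion (Abelianization K) := by
      intro x
      obtain ⟨y, rfl⟩ := QuotientGroup.mk'_surjective _ x
      have h1 : IsOfFinOrder (y : G) := h y
      have h2 : IsOfFinOrder y := by
        exact Submonoid.isOfFinOrder_coe.mp h1
      exact MonoidHom.isOfFinOrder _ h2
    have hfin : Finite (Abelianization K) :=
      CommGroup.finite_of_fg_isMulTorsion (G := Abelianization K) htor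
    have hidx : (commutator K).FiniteIndex := by
      have : Finite (K ⧸ commutator K) := hfin
      exact Subgroup.finiteIndex_of_finite_quotient
    rw [derivedSeries_succ, ← hK, ← Subgroup.map_subtype_commutator]
    constructor
    rw [Subgroup.index_map_subtype]
    exact mul_ne_zero hidx.index_ne_zero ih.index_ne_zero

/-- a finitely generated soluble torsion group is finite -/
theorem finite_of_fg_solvable_torsion (G : Type u) [Group G] [Group.FG G] [hs : Group.IsSolvable G]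
    (h : ∀ g : G, IsOfFinOrder g) : Finite G := by
  obtain ⟨n, hn⟩ := hs.solvable
  have := derivedSeries_finite_index G h n
  rw [hn] at this
  have h1 : Finite (G ⧸ (⊥ : Subgroup G)) := inferInstance
  exact Finite.of_injective (fun g : G => (QuotientGroup.mk g : G ⧸ (⊥ : Subgroup G))) (by
    intro a b hab
    simpa [QuotientGroup.eq, inv_mul_eq_one] using hab)

theorem fin_sol {G : Type u} [Group G] (per : ∀ x : G, IsOfFinOrder x) {S : Set G} (hS : S.Finite)
    (h : Group.IsSolvable (Subgroup.closure S)) : Finite (Subgroup.closure S) := by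
  have h1 : Group.FG (Subgroup.closure S) :=
    (Group.fg_iff_subgroup_fg _).2 ((Subgroup.fg_iff _).2 ⟨S, rfl, hS⟩)
  exact finite_of_fg_solvable_torsion _ (per_sub per _)

theorem sol_mono {G : Type u} [Group G] {E E' : Subgroup G} (hE : E ≤ E')
    (h : Group.IsSolvable E') : Group.IsSolvable E :=
  Group.isSolvable_of_isSolvable_injective (Subgroup.inclusion_injective hE)

/-! ## Translation of the library -/

theorem tt_o2 (hr : r.Prime) (hm : ¬ r ∣ m) {F : Type} [Group F] {z : F}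
    (h : TT (r ^ α) m ⊤ z) : z ∈ O2 hr F := by
  obtain ⟨A, B, h1, h2, h3, h4, h5⟩ := h
  have hA : A.Normal := ⟨fun x hx g => h1 g trivial x hx⟩
  have hB : B.Normal := ⟨fun x hx g => h2 g trivial x hx⟩
  exact le_o2 hr A B (fun x hx => ⟨m, hm, h3 x hx⟩) (fun x hx => ⟨α, h4 x hx⟩) h5

theorem ok_tt (hr : r.Prime) (hm : ¬ r ∣ m) {F : Type} [Group F]
    (hF : ∀ x : F, x ^ (r ^ α * m) = 1) {E : Subgroup F} {z : F} (h : Ok hr E z) :
    TT (r ^ α) m E z := by
  obtain ⟨h1, h2⟩ := h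
  have hE : ∀ x : E, x ^ (r ^ α * m) = 1 := fun x => Subtype.ext (by
    rw [Subgroup.coe_pow, hF, Subgroup.coe_one])
  refine ⟨(O1 hr E).map E.subtype, (O2 hr E).map E.subtype, ?_, ?_, ?_, ?_, ⟨_, h2, rfl⟩⟩
  · rintro g hg _ ⟨x, hx, rfl⟩
    exact ⟨⟨g, hg⟩ * x * ⟨g, hg⟩⁻¹, (inferInstance : (O1 hr E).Normal).conj_mem x hx ⟨g, hg⟩, rfl⟩
  · rintro g hg _ ⟨x, hx, rfl⟩
    exact ⟨⟨g, hg⟩ * x * ⟨g, hg⟩⁻¹, (inferInstance : (O2 hr E).Normal).conj_mem x hx ⟨g, hg⟩, rfl⟩
  · rintro _ ⟨x, hx, rfl⟩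
    rw [← map_pow, pow_m hr (rd_el hx) (hE x), map_one]
  · rintro _ ⟨x, hx, rfl⟩
    refine ⟨x ^ r ^ α, ?_, by rw [map_pow]⟩
    rw [SetLike.mem_coe, ← QuotientGroup.eq_one_iff, QuotientGroup.mk_pow]
    refine pow_r hr hm (rd_el (mem_o2.1 hx)) ?_
    rw [← QuotientGroup.mk_pow, hE, QuotientGroup.mk_one]

/-- the condition on exceptional prime powers -/
def Gen (r α m : ℕ) : Prop :=
  ∀ q : ℕ, q.Prime → q ∣ m → ∀ μ, 1 ≤ μ → μ ≤ α → ∀ ρ, 1 ≤ ρ → q ^ ρ ≠ r ^ μ - 1

theorem ne_zero_of (hm : ¬ r ∣ m) : m ≠ 0 := fun h => hm (h ▸ dvd_zero r)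

/-- the theorem of Hall and Higman -/
theorem hh_u (hr : r.Prime) (hm : ¬ r ∣ m) (hα : 1 ≤ α) (hex : Gen r α m) {F : Type u} [Group F]
    [Finite F] (hF : ∀ x : F, x ^ (r ^ α * m) = 1) (hsol : Group.IsSolvable F) {x : F}
    (hx : x ^ r ^ α = 1) : x ^ r ^ (α - 1) ∈ O2 hr F := by
  obtain ⟨F', _, _, ⟨e⟩⟩ := Finite.exists_type_univ_nonempty_mulEquiv.{u, 0} F
  have hF' : ∀ x : F', x ^ (r ^ α * m) = 1 := fun x => by
    obtain ⟨y, rfl⟩ := e.surjective x
    rw [← map_pow, hF, map_one]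
  have hs' : Group.IsSolvable F' :=
    Group.isSolvable_of_surjective (f := e.toMonoidHom) e.surjective
  have h1 := tt_o2 hr hm (hhBG hr hm (ne_zero_of hm) hα hex hF' hs' (x := e x)
    (by rw [← map_pow, hx, map_one]))
  rw [← map_pow] at h1
  exact comap_o2 (f := e.toMonoidHom) e.injective h1

/-- membership in `O2` is detected on two-generator subgroups -/
theorem bs_u (hr : r.Prime) (hm : ¬ r ∣ m) {F : Type u} [Group F] [Finite F]
    (hF : ∀ x : F, x ^ (r ^ α * m) = 1) (hsol : Group.IsSolvable F) {z : F}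
    (hz : z ^ r ^ α = 1) (h : ∀ f : F, Ok hr (Subgroup.closure {z, f}) z) : z ∈ O2 hr F := by
  obtain ⟨F', _, _, ⟨e⟩⟩ := Finite.exists_type_univ_nonempty_mulEquiv.{u, 0} F
  have hF' : ∀ x : F', x ^ (r ^ α * m) = 1 := fun x => by
    obtain ⟨y, rfl⟩ := e.surjective x
    rw [← map_pow, hF, map_one]
  have hs' : Group.IsSolvable F' :=
    Group.isSolvable_of_surjective (f := e.toMonoidHom) e.surjective
  have h1 : ∀ f : F', TT (r ^ α) m (c2 (e z) f) (e z) := by
    intro f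
    obtain ⟨f, rfl⟩ := e.surjective f
    have h2 := (h f).map e.toMonoidHom
    rw [closure_map_pair] at h2
    exact ok_tt hr hm hF' h2
  have h3 := tt_o2 hr hm (bsG hr ((Nat.Prime.coprime_iff_not_dvd hr).2 hm) hF' hs'
    (by rw [← map_pow, hz, map_one]) h1)
  exact comap_o2 (f := e.toMonoidHom) e.injective h3

/-! ## The step -/

/-- the set of the `r ^ (α - 1)`-th powers of the elements with trivial `r ^ α`-th power -/
def Sα (r α : ℕ) (G : Type u) [Group G] : Set G := {z | ∃ x : G, x ^ r ^ α = 1 ∧ z = x ^ r ^ (α - 1)}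

theorem s_pow (hα : 1 ≤ α) {G : Type u} [Group G] {z : G} (hz : z ∈ Sα r α G) : z ^ r = 1 := by
  obtain ⟨x, hx, rfl⟩ := hz
  rw [← pow_mul, ← pow_succ, Nat.sub_add_cancel hα, hx]

/-- the hypotheses on a group -/
structure Hy (r α m : ℕ) (G : Type u) [Group G] : Prop where
  exp : ∀ x : G, x ^ (r ^ α * m) = 1
  two : ∀ x t : G, t ^ r ^ α = 1 → Group.IsSolvable (Subgroup.closure {x, t})
  three : ∀ (H : Type u) [Group H] (f : G →* H), Function.Surjective f → ∀ s t u : H, s ^ r = 1 →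
    t ^ r = 1 → u ^ r = 1 → Group.IsSolvable (Subgroup.closure {s, t, u})

section

variable {G : Type u} [Group G]

/-- two-generator subgroups -/
theorem two_ok (hr : r.Prime) (hm : ¬ r ∣ m) (hα : 1 ≤ α) (hex : Gen r α m)
    (exp : ∀ x : G, x ^ (r ^ α * m) = 1)
    (two : ∀ x t : G, t ^ r ^ α = 1 → Group.IsSolvable (Subgroup.closure {x, t})) {s : G}
    (hs : s ∈ Sα r α G) (g : G) : Finite (Subgroup.closure {s, g}) ∧
      Ok hr (Subgroup.closure {s, g}) s := by
  have per := per_exp (pos_of (α := α) hr hm) exp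
  obtain ⟨x, hx, rfl⟩ := hs
  have h1 := two g x hx
  have h2 := fin_sol per (Set.toFinite {g, x}) h1
  have hxE : x ∈ Subgroup.closure ({g, x} : Set G) := Subgroup.subset_closure (by simp)
  have hgE : g ∈ Subgroup.closure ({g, x} : Set G) := Subgroup.subset_closure (by simp)
  have hle : Subgroup.closure {x ^ r ^ (α - 1), g} ≤ Subgroup.closure ({g, x} : Set G) := by
    rw [Subgroup.closure_le]
    rintro y (rfl | hy)
    · exact pow_mem hxE _
    · rw [Set.mem_singleton_iff.1 hy]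
      exact hgE
  have h3 : Ok hr (Subgroup.closure ({g, x} : Set G)) (x ^ r ^ (α - 1)) := by
    refine ⟨pow_mem hxE _, ?_⟩
    have h4 := hh_u hr hm hα hex (F := Subgroup.closure ({g, x} : Set G))
      (fun y => Subtype.ext (by rw [Subgroup.coe_pow, exp, Subgroup.coe_one])) h1 (x := ⟨x, hxE⟩)
      (Subtype.ext hx)
    exact h4
  refine ⟨Finite.of_injective _ (Subgroup.inclusion_injective hle), h3.mono hle ?_⟩
  exact Subgroup.subset_closure (by simp)

theorem Hy.dat (hr : r.Prime) (hm : ¬ r ∣ m) (hα : 1 ≤ α) (hex : Gen r α m) (h : Hy r α m G) :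
    Dat hr G (Sα r α G) := by
  have per := per_exp (pos_of (α := α) hr hm) h.exp
  refine dat_of_three per ?_ ?_ (fun s hs g => two_ok hr hm hα hex h.exp h.two hs g) ?_
  · intro s hs
    exact ⟨r, ⟨1, (pow_one r).symm⟩, s_pow hα hs⟩
  · rintro _ ⟨x, hx, rfl⟩ g
    exact ⟨g * x * g⁻¹, by rw [conj_pow, hx, mul_one, mul_inv_cancel], by rw [conj_pow]⟩
  · intro s hs t ht u hu
    have h1 := h.three G (MonoidHom.id G) Function.surjective_id s t u (s_pow hα hs) (s_pow hα ht)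
      (s_pow hα hu)
    have h2 := fin_sol per (Set.toFinite {s, t, u}) h1
    have key : ∀ z ∈ ({s, t, u} : Set G), z ∈ Sα r α G → Ok hr (Subgroup.closure {s, t, u}) z := by
      intro z hz hzS
      have hzE : z ∈ Subgroup.closure ({s, t, u} : Set G) := Subgroup.subset_closure hz
      refine ⟨hzE, ?_⟩
      refine bs_u (α := α) hr hm (fun y => Subtype.ext (by
        rw [Subgroup.coe_pow, h.exp, Subgroup.coe_one])) h1 (Subtype.ext ?_) ?_
      · have h3 : z ^ r ^ α = 1 := by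
          obtain ⟨β, rfl⟩ : ∃ β, α = β + 1 := ⟨α - 1, by omega⟩
          rw [pow_succ', pow_mul, s_pow hα hzS, one_pow]
        exact h3
      · intro f
        have h3 := (two_ok hr hm hα hex h.exp h.two hzS (f : G)).2
        refine Ok.of_map (f := (Subgroup.closure ({s, t, u} : Set G)).subtype)
          (Subgroup.subtype_injective _) ?_
        rw [closure_map_pair]
        exact h3
    exact ⟨key s (by simp) hs, key t (by simp) ht, key u (by simp) hu⟩

/-- exponent of the quotient -/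
theorem exp_o2 (hr : r.Prime) (exp : ∀ x : G, x ^ (r ^ α * m) = 1)
    (hS : Sα r α G ⊆ O2 hr G) (x : G ⧸ O2 hr G) : x ^ (r ^ (α - 1) * m) = 1 := by
  obtain ⟨x, rfl⟩ := QuotientGroup.mk_surjective x
  rw [← QuotientGroup.mk_pow, QuotientGroup.eq_one_iff]
  refine hS ⟨x ^ m, by rw [← pow_mul, mul_comm, exp], by rw [← pow_mul, mul_comm]⟩

theorem exp_o1 (hr : r.Prime) (exp : ∀ x : G, x ^ (r ^ α * m) = 1) {x : G} (hx : x ∈ O1 hr G) :
    x ^ m = 1 := pow_m hr (rd_el hx) (exp x)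

theorem exp_o21 (hr : r.Prime) (hm : ¬ r ∣ m) (exp : ∀ x : G, x ^ (r ^ α * m) = 1) {x : G}
    (hx : x ∈ O2 hr G) : x ^ r ^ α ∈ O1 hr G := by
  rw [← QuotientGroup.eq_one_iff, QuotientGroup.mk_pow]
  refine pow_r hr hm (rd_el (mem_o2.1 hx)) ?_
  rw [← QuotientGroup.mk_pow, exp, QuotientGroup.mk_one]

theorem Hy.next (hr : r.Prime) (hm : ¬ r ∣ m) (hα : 1 ≤ α) (hex : Gen r α m) (h : Hy r α m G) :
    Hy r (α - 1) m (G ⧸ O2 hr G) := by
  have per := per_exp (pos_of (α := α) hr hm) h.exp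
  refine ⟨exp_o2 hr h.exp (h.dat hr hm hα hex).le_o2, ?_, ?_⟩
  · intro x t ht
    obtain ⟨x, rfl⟩ := QuotientGroup.mk_surjective x
    obtain ⟨t, rfl⟩ := QuotientGroup.mk_surjective t
    obtain ⟨a, b, h1, h2, h3, h4, -⟩ := parts hr (per t)
    have h5 : (t : G ⧸ O2 hr G) ^ a = t :=
      (h4 _ (by rw [← QuotientGroup.mk_pow, pow_orderOf_eq_one, QuotientGroup.mk_one])
        (el_iff.2 ⟨_, ht⟩)).1
    have h6 := h.two x (t ^ a) (pow_r hr hm h1 (h.exp _))
    have h7 : Group.IsSolvable ((Subgroup.closure {x, t ^ a}).map (QuotientGroup.mk' (O2 hr G))) :=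
      Group.isSolvable_of_surjective ((QuotientGroup.mk' (O2 hr G)).subgroupMap_surjective _)
    rw [closure_map_pair, map_pow] at h7
    change Group.IsSolvable (Subgroup.closure {(x : G ⧸ O2 hr G), (t : G ⧸ O2 hr G) ^ a}) at h7
    rwa [h5] at h7
  · intro H _ f hf s t u hs ht hu
    exact h.three H (f.comp (QuotientGroup.mk' (O2 hr G)))
      (hf.comp (QuotientGroup.mk'_surjective _)) s t u hs ht hu

end

/-- a normal series of length `2 α + 1` with alternating factors -/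
def Series (P m α : ℕ) (G : Type u) [Group G] : Prop :=
  ∃ N : ℕ → Subgroup G, N 0 = ⊥ ∧ N (2 * α + 1) = ⊤ ∧ ∀ i, (N i).Normal ∧ N i ≤ N (i + 1) ∧
    (Even i → ∀ x ∈ N (i + 1), x ^ m ∈ N i) ∧ (Odd i → ∀ x ∈ N (i + 1), x ^ P ∈ N i)

theorem series_zero {P : ℕ} {G : Type u} [Group G] (h : ∀ x : G, x ^ m = 1) : Series P m 0 G := by
  refine ⟨fun i => if i = 0 then ⊥ else ⊤, by simp, by simp, fun i => ⟨?_, ?_, ?_, ?_⟩⟩
  · dsimp only
    split_ifs
    · infer_instance
    · infer_instance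
  · dsimp only
    rw [if_neg (Nat.succ_ne_zero i)]
    exact le_top
  · intro _ x _
    dsimp only
    split_ifs
    · rw [h]; exact one_mem _
    · trivial
  · intro hi x _
    dsimp only
    have : i ≠ 0 := by
      rintro rfl
      exact (Nat.not_odd_zero hi)
    rw [if_neg this]
    trivial

theorem series_step (hr : r.Prime) (hm : ¬ r ∣ m) {G : Type u} [Group G]
    (exp : ∀ x : G, x ^ (r ^ α * m) = 1) {β : ℕ} (h : Series (r ^ α) m β (G ⧸ O2 hr G)) :
    Series (r ^ α) m (β + 1) G := by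
  obtain ⟨N, h0, h1, hN⟩ := h
  let f := QuotientGroup.mk' (O2 hr G)
  let M : ℕ → Subgroup G := fun i => match i with
    | 0 => ⊥
    | 1 => O1 hr G
    | i + 2 => (N i).comap f
  have hM2 : M 2 = O2 hr G := by
    show (N 0).comap f = _
    rw [h0, MonoidHom.comap_bot, QuotientGroup.ker_mk']
  refine ⟨M, rfl, ?_, fun i => ?_⟩
  · show (N (2 * β + 1)).comap f = ⊤
    rw [h1, Subgroup.comap_top]
  · rcases i with _ | _ | i
    · refine ⟨(inferInstance : (⊥ : Subgroup G).Normal), bot_le, fun _ x hx => ?_, fun hi => ?_⟩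
      · exact Subgroup.mem_bot.2 (exp_o1 hr exp hx)
      · exact absurd hi Nat.not_odd_zero
    · refine ⟨(inferInstance : (O1 hr G).Normal), ?_, fun hi => ?_, fun _ x hx => ?_⟩
      · rw [hM2]
        exact o1_le_o2 hr
      · exact absurd hi (by decide)
      · rw [hM2] at hx
        exact exp_o21 hr hm exp hx
    · obtain ⟨h2, h3, h4, h5⟩ := hN i
      refine ⟨h2.comap f, Subgroup.comap_mono h3, fun hi x hx => ?_, fun hi x hx => ?_⟩
      · show f (x ^ m) ∈ N i
        rw [map_pow]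
        exact h4 (by rwa [Nat.even_add_one, Nat.even_add_one, not_not] at hi) _ hx
      · show f (x ^ r ^ α) ∈ N i
        rw [map_pow]
        exact h5 (by rwa [Nat.odd_add_one, Nat.odd_add_one, not_not] at hi) _ hx

theorem Series.mono {P Q m α : ℕ} {G : Type u} [Group G] (h : Series P m α G) (hPQ : P ∣ Q) :
    Series Q m α G := by
  obtain ⟨N, h0, h1, hN⟩ := h
  refine ⟨N, h0, h1, fun i => ?_⟩
  obtain ⟨h2, h3, h4, h5⟩ := hN i
  refine ⟨h2, h3, h4, fun hi x hx => ?_⟩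
  obtain ⟨c, rfl⟩ := hPQ
  rw [pow_mul]
  exact pow_mem (h5 hi x hx) c

theorem Gen.mono {β : ℕ} (h : Gen r α m) (hβ : β ≤ α) : Gen r β m :=
  fun q hq hqm μ h1 h2 => h q hq hqm μ h1 (h2.trans hβ)

/-- the normal series -/
theorem Hy.series (hr : r.Prime) (hm : ¬ r ∣ m) : ∀ (α : ℕ), Gen r α m →
    ∀ (G : Type u) [Group G], Hy r α m G → Series (r ^ α) m α G := by
  intro α
  induction α with
  | zero =>
    intro _ G _ h
    refine series_zero fun x => ?_
    have := h.exp x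
    rwa [pow_zero, one_mul] at this
  | succ α ih =>
    intro hex G _ h
    have h1 := h.next hr hm (by omega) hex
    have h2 := ih (hex.mono (by omega)) _ h1
    exact series_step hr hm h.exp (h2.mono (pow_dvd_pow r (by omega)))

/-- local finiteness -/
theorem lf_step (hr : r.Prime) (hm : ¬ r ∣ m) {G : Type} [Group G]
    (exp : ∀ x : G, x ^ (r ^ α * m) = 1) (hLm : LocFin m) (hLr : LocFin (r ^ α))
    (h : LF (G ⧸ O2 hr G)) : LF G := by
  have h1 : LF (O1 hr G) := hLm _ fun x => Subtype.ext (exp_o1 hr exp x.2)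
  refine x_SCH G (O1 hr G) h1 ?_
  have h2 : LF (Or hr (G ⧸ O1 hr G)) := hLr _ fun x => Subtype.ext (by
    rw [Subgroup.coe_pow, Subgroup.coe_one]
    refine pow_r hr hm (rd_el x.2) ?_
    obtain ⟨y, hy⟩ := QuotientGroup.mk_surjective (x : G ⧸ O1 hr G)
    rw [← hy, ← QuotientGroup.mk_pow, exp, QuotientGroup.mk_one])
  refine x_SCH _ (Or hr (G ⧸ O1 hr G)) h2 ?_
  let f : G →* (G ⧸ O1 hr G) ⧸ Or hr (G ⧸ O1 hr G) :=
    (QuotientGroup.mk' _).comp (QuotientGroup.mk' _)
  have hf : Function.Surjective f :=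
    (QuotientGroup.mk'_surjective _).comp (QuotientGroup.mk'_surjective _)
  have hk : O2 hr G ≤ f.ker := by
    intro x hx
    exact (QuotientGroup.eq_one_iff _).2 (mem_o2.1 hx)
  exact x_LFS.1 _ _ (QuotientGroup.lift (O2 hr G) f hk) (by
    intro y
    obtain ⟨x, rfl⟩ := hf y
    exact ⟨(x : G ⧸ O2 hr G), rfl⟩) h

theorem Hy.lf (hr : r.Prime) (hm : ¬ r ∣ m) (hLm : LocFin m) : ∀ (α : ℕ), Gen r α m →
    LocFin (r ^ α) → ∀ (G : Type) [Group G], Hy r α m G → LF G := by
  intro α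
  induction α with
  | zero =>
    intro _ _ G _ h
    refine hLm G fun x => ?_
    have := h.exp x
    rwa [pow_zero, one_mul] at this
  | succ α ih =>
    intro hex hL G _ h
    have h1 := h.next hr hm (by omega) hex
    exact lf_step hr hm h.exp hLm hL (ih (hex.mono (by omega))
      (x_LFD.1 _ _ (pow_dvd_pow r (by omega)) hL) _ h1)

/-! ## Involutions -/

/-- the hypotheses for `2 m`, `m` odd -/
structure Hz (m : ℕ) (G : Type u) [Group G] : Prop where
  exp : ∀ x : G, x ^ (2 * m) = 1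
  two : ∀ x t : G, t ^ 2 = 1 → Group.IsSolvable (Subgroup.closure {x, t})
  odd : ∀ a b : G, a ^ m = 1 → b ^ m = 1 → Group.IsSolvable (Subgroup.closure {a, b})

theorem gen_two (m : ℕ) : Gen 2 1 m := by
  intro q hq _ μ h1 h2 ρ h3 h
  have : μ = 1 := by omega
  subst this
  have h4 : 1 < q ^ ρ := Nat.one_lt_pow (by omega) hq.one_lt
  omega

theorem Hz.dat (hm : ¬ 2 ∣ m) {G : Type u} [Group G] (h : Hz m G) :
    Dat Nat.prime_two G (Sα 2 1 G) := by
  have exp : ∀ x : G, x ^ (2 ^ 1 * m) = 1 := h.exp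
  have per := per_exp (pos_of (α := 1) Nat.prime_two hm) exp
  have two := fun s (hs : s ∈ Sα 2 1 G) g => two_ok Nat.prime_two hm le_rfl (gen_two m) exp
    (fun x t ht => h.two x t ht) hs g
  have sq : ∀ s ∈ Sα 2 1 G, s ^ 2 = 1 := fun s hs => s_pow le_rfl hs
  have inv : ∀ s ∈ Sα 2 1 G, s⁻¹ = s := fun s hs => by
    rw [inv_eq_iff_mul_eq_one, ← pow_two, sq s hs]
  have cj : ∀ s ∈ Sα 2 1 G, ∀ g : G, g * s * g⁻¹ ∈ Sα 2 1 G := by
    rintro _ ⟨x, hx, rfl⟩ g
    exact ⟨g * x * g⁻¹, by rw [conj_pow, hx, mul_one, mul_inv_cancel], by rw [conj_pow]⟩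
  have tr : ∀ s ∈ Sα 2 1 G, ∀ t ∈ Sα 2 1 G, ∀ u ∈ Sα 2 1 G, Rel 2 s t → Rel 2 t u → Rel 2 s u := by
    intro s hs t ht u hu h1 h2
    have e1 : s⁻¹ * t = s * t := by rw [inv s hs]
    have e2 : t⁻¹ * u = t * u := by rw [inv t ht]
    have h3 : (s * t) ^ m = 1 := pow_m (α := 1) Nat.prime_two (by rw [← e1]; exact h1) (exp _)
    have h4 : (t * u) ^ m = 1 := pow_m (α := 1) Nat.prime_two (by rw [← e2]; exact h2) (exp _)
    have h5 := h.odd _ _ h3 h4
    have h6 := fin_sol per (Set.toFinite {s * t, t * u}) h5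
    obtain ⟨h7, h8⟩ := three_invol s t u (sq s hs) (sq t ht) (sq u hu) h6 h5
    have key : ∀ z ∈ ({s, t, u} : Set G), z ∈ Sα 2 1 G →
        Ok Nat.prime_two (Subgroup.closure {s, t, u}) z := by
      intro z hz hzS
      have hzE : z ∈ Subgroup.closure ({s, t, u} : Set G) := Subgroup.subset_closure hz
      refine ⟨hzE, ?_⟩
      refine bs_u (α := 1) Nat.prime_two hm (fun y => Subtype.ext (by
        rw [Subgroup.coe_pow, exp, Subgroup.coe_one])) h8 (Subtype.ext (sq z hzS)) ?_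
      intro f
      have h3 := (two z hzS (f : G)).2
      refine Ok.of_map (f := (Subgroup.closure ({s, t, u} : Set G)).subtype)
        (Subgroup.subtype_injective _) ?_
      rw [closure_map_pair]
      exact h3
    obtain ⟨m1, o1⟩ := key s (by simp) hs
    obtain ⟨m2, o2⟩ := key t (by simp) ht
    obtain ⟨m3, o3⟩ := key u (by simp) hu
    have el : ∀ z ∈ Sα 2 1 G, El (PR 2) z := fun z hz => ⟨2, ⟨1, rfl⟩, sq z hz⟩
    have f1 := mk_eq Nat.prime_two o1 (t := (⟨t, m2⟩ : Subgroup.closure ({s, t, u} : Set G)))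
      (el_sub.2 (el t ht)) (el_sub.2 h1)
    have f2 := mk_eq Nat.prime_two o2 (t := (⟨u, m3⟩ : Subgroup.closure ({s, t, u} : Set G)))
      (el_sub.2 (el u hu)) (el_sub.2 h2)
    exact el_sub.1 (el_of_mk_eq Nat.prime_two (f1.trans f2))
  refine ⟨per, fun s hs => ⟨2, ⟨1, rfl⟩, sq s hs⟩, cj,
    fun s hs g => ⟨(two s hs g).1, (two s hs g).2.2⟩, tr, ?_⟩
  intro s hs t ht h1 u hu
  -- `u` and `s u s` are related
  have hdih : ∀ s ∈ Sα 2 1 G, ∀ u ∈ Sα 2 1 G, Rel 2 u (s * u * s⁻¹) := by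
    intro s hs u hu
    have e : u⁻¹ * (s * u * s⁻¹) = (u * s) ^ 2 := by
      rw [inv s hs, inv u hu, pow_two]
      group
    unfold Rel
    rw [e]
    exact ⟨m, hm, by rw [← pow_mul, h.exp]⟩
  have h2 := hdih s hs u hu
  have h3 := hdih t ht _ (cj u hu s)
  have h4 := tr _ hu _ (cj u hu s) _ (cj _ (cj u hu s) t) h2 h3
  have e : (s⁻¹ * t)⁻¹ * u * (s⁻¹ * t) = t * (s * u * s⁻¹) * t⁻¹ := by
    rw [mul_inv_rev, inv s hs, inv t ht, inv s hs]
    group
  rw [e]
  exact h4

theorem Hz.exp_o2 (hm : ¬ 2 ∣ m) {G : Type u} [Group G] (h : Hz m G) (x : G ⧸ O2 Nat.prime_two G) :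
    x ^ m = 1 := by
  have := RL.exp_o2 (α := 1) (m := m) Nat.prime_two h.exp (h.dat hm).le_o2 x
  rwa [Nat.sub_self, pow_zero, one_mul] at this

theorem Hz.series (hm : ¬ 2 ∣ m) {G : Type u} [Group G] (h : Hz m G) : Series 2 m 1 G := by
  have := series_step (α := 1) (β := 0) Nat.prime_two hm (G := G) h.exp
    (series_zero (h.exp_o2 hm))
  simpa using this

theorem Hz.lf (hm : ¬ 2 ∣ m) (hLm : LocFin m) {G : Type} [Group G] (h : Hz m G) : LF G := by
  refine lf_step (α := 1) Nat.prime_two hm h.exp hLm ?_ (hLm _ (h.exp_o2 hm))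
  exact x_LFD.1 4 2 (by norm_num) x_L34.2

end Run7.h806.RL
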