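import Mathlib
import Pool.Agent.Run7.h806.RL.HH

set_option autoImplicit false

/-!
# Universal groups and the set `𝓛`
-/

namespace Run7.h806.RL

open Pool.Agent.H32BU Pool.Agent.W629

universe u v

/-- the largest group of exponent dividing `n` with generators `x_i`, `i < k`, `x_i ^ e i = 1` -/
abbrev U (k n : ℕ) (e : Fin k → ℕ) : Type :=
  FreeGroup (Fin k) ⧸ Subgroup.normalClosure
    ((Set.range fun w : FreeGroup (Fin k) => w ^ n) ∪ Set.range fun i => FreeGroup.of i ^ e i)

variable {k n : ℕ} {e : Fin k → ℕ}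

theorem u_exp (x : U k n e) : x ^ n = 1 := by
  obtain ⟨w, rfl⟩ := QuotientGroup.mk_surjective x
  rw [← QuotientGroup.mk_pow, QuotientGroup.eq_one_iff]
  exact Subgroup.subset_normalClosure (Or.inl ⟨w, rfl⟩)

theorem u_onto {G : Type u} [Group G] (hG : ∀ x : G, x ^ n = 1) (g : Fin k → G)
    (hg : ∀ i, g i ^ e i = 1) : ∃ f : U k n e →* G, f.range = Subgroup.closure (Set.range g) := by
  let f0 : FreeGroup (Fin k) →* G := FreeGroup.lift g
  have hker : Subgroup.normalClosure ((Set.range fun w : FreeGroup (Fin k) => w ^ n) ∪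
      Set.range fun i => FreeGroup.of i ^ e i) ≤ f0.ker := by
    apply Subgroup.normalClosure_le_normal
    rintro _ (⟨w, rfl⟩ | ⟨i, rfl⟩)
    · rw [SetLike.mem_coe, MonoidHom.mem_ker, map_pow, hG]
    · rw [SetLike.mem_coe, MonoidHom.mem_ker, map_pow, FreeGroup.lift_apply_of, hg]
  refine ⟨QuotientGroup.lift _ f0 (fun w hw => hker hw), ?_⟩
  have e1 : (QuotientGroup.lift _ f0 (fun w hw => hker hw) : U k n e →* G).range = f0.range := by
    ext g
    constructor
    · rintro ⟨w, rfl⟩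
      obtain ⟨w, rfl⟩ := QuotientGroup.mk_surjective w
      exact ⟨w, rfl⟩
    · rintro ⟨w, rfl⟩
      exact ⟨(w : U k n e), rfl⟩
  rw [e1]
  exact FreeGroup.range_lift_eq_closure

theorem range_two {G : Type u} (x y : G) : Set.range ![x, y] = {x, y} := by
  ext g
  simp only [Set.mem_range, Fin.exists_fin_succ, Set.mem_insert_iff, Set.mem_singleton_iff]
  simp [eq_comm]

theorem range_three {G : Type u} (x y z : G) : Set.range ![x, y, z] = {x, y, z} := by
  ext g
  simp only [Set.mem_range, Fin.exists_fin_succ, Set.mem_insert_iff, Set.mem_singleton_iff]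
  simp [eq_comm]

theorem u_two {a b : ℕ} {G : Type u} [Group G] (hG : ∀ x : G, x ^ n = 1) {x y : G}
    (hx : x ^ a = 1) (hy : y ^ b = 1) :
    ∃ f : U 2 n ![a, b] →* G, f.range = Subgroup.closure {x, y} := by
  obtain ⟨f, hf⟩ := u_onto (e := ![a, b]) hG ![x, y] (by
    intro i; fin_cases i
    · exact hx
    · exact hy)
  rw [range_two] at hf
  exact ⟨f, hf⟩

theorem u_three {a b c : ℕ} {G : Type u} [Group G] (hG : ∀ x : G, x ^ n = 1) {x y z : G}
    (hx : x ^ a = 1) (hy : y ^ b = 1) (hz : z ^ c = 1) :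
    ∃ f : U 3 n ![a, b, c] →* G, f.range = Subgroup.closure {x, y, z} := by
  obtain ⟨f, hf⟩ := u_onto (e := ![a, b, c]) hG ![x, y, z] (by
    intro i; fin_cases i
    · exact hx
    · exact hy
    · exact hz)
  rw [range_three] at hf
  exact ⟨f, hf⟩

theorem sol_range {A : Type v} [Group A] {G : Type u} [Group G] (h : Group.IsSolvable A)
    (f : A →* G) {E : Subgroup G} (hf : f.range = E) : Group.IsSolvable E := by
  rw [← hf]
  exact Group.isSolvable_of_surjective f.rangeRestrict_surjective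

theorem fin_range {A : Type v} [Group A] {G : Type u} [Group G] (h : Finite A)
    (f : A →* G) {E : Subgroup G} (hf : f.range = E) : Finite E := by
  rw [← hf]
  exact Finite.of_surjective f.rangeRestrict f.rangeRestrict_surjective

theorem u_fg : Group.FG (U k n e) := by
  infer_instance

theorem u_gen : Subgroup.closure (Set.range fun i : Fin k =>
    (QuotientGroup.mk (FreeGroup.of i) : U k n e)) = ⊤ := by
  rw [eq_top_iff]
  rintro x -
  obtain ⟨w, rfl⟩ := QuotientGroup.mk_surjective x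
  induction w using FreeGroup.induction_on with
  | C1 => exact one_mem _
  | of i => exact Subgroup.subset_closure ⟨i, rfl⟩
  | inv_of i hi => exact inv_mem hi
  | mul a b ha hb => exact mul_mem ha hb

theorem u_finite (hL : LocFin n) : Finite (U k n e) := by
  classical
  have h := hL (U k n e) u_exp
    (Finset.univ.image fun i : Fin k => (QuotientGroup.mk (FreeGroup.of i) : U k n e))
  have hgen : Subgroup.closure ((Finset.univ.image fun i : Fin k =>
      (QuotientGroup.mk (FreeGroup.of i) : U k n e) : Finset (U k n e)) : Set (U k n e)) = ⊤ := by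
    rw [Finset.coe_image, Finset.coe_univ, Set.image_univ]
    exact u_gen
  rw [hgen] at h
  exact Finite.of_equiv _ (Subgroup.topEquiv (G := U k n e)).toEquiv

/-- finite groups of exponent with at most two prime divisors -/
theorem sol_two_primes (hn : 1 ≤ n) (h : n.primeFactors.card ≤ 2) {A : Type} [Group A] [Finite A]
    (hA : ∀ x : A, x ^ n = 1) : Group.IsSolvable A := by
  obtain ⟨p, q, a, b, hp, hq, rfl⟩ := two_primes n hn h
  exact solv_of_exp p q a b hp hq hA

variable {r α m : ℕ}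

/-- the hypotheses hold in all groups of exponent `n` -/
theorem hy_of_u (h2 : Group.IsSolvable (U 2 (r ^ α * m) ![0, r ^ α]))
    (h3 : Group.IsSolvable (U 3 (r ^ α * m) ![r, r, r])) {G : Type u} [Group G]
    (hG : ∀ x : G, x ^ (r ^ α * m) = 1) : Hy r α m G := by
  refine ⟨hG, fun x t ht => ?_, fun H _ f hf s t u hs ht hu => ?_⟩
  · obtain ⟨f, hf⟩ := u_two (a := 0) (b := r ^ α) hG (pow_zero x) ht
    exact sol_range h2 f hf
  · have hH : ∀ x : H, x ^ (r ^ α * m) = 1 := fun x => by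
      obtain ⟨y, rfl⟩ := hf x
      rw [← map_pow, hG, map_one]
    obtain ⟨f, hf⟩ := u_three hH hs ht hu
    exact sol_range h3 f hf

theorem hz_of_u (h2 : Group.IsSolvable (U 2 (2 * m) ![0, 2]))
    (h3 : Group.IsSolvable (U 2 (2 * m) ![m, m])) {G : Type u} [Group G]
    (hG : ∀ x : G, x ^ (2 * m) = 1) : Hz m G := by
  refine ⟨hG, fun x t ht => ?_, fun a b ha hb => ?_⟩
  · obtain ⟨f, hf⟩ := u_two (a := 0) (b := 2) hG (pow_zero x) ht
    exact sol_range h2 f hf
  · obtain ⟨f, hf⟩ := u_two hG ha hb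
    exact sol_range h3 f hf

/-- the criterion -/
theorem crit (hr : r.Prime) (hm : ¬ r ∣ m) (hex : Gen r α m)
    (hs : (r ^ α * m).primeFactors.card ≤ 2 ∨
      Group.IsSolvable (U 2 (r ^ α * m) ![0, r ^ α]) ∧
      Group.IsSolvable (U 3 (r ^ α * m) ![r, r, r])) :
    LocFin (r ^ α * m) ↔ LocFin (r ^ α) ∧ LocFin m ∧
      Finite (U 2 (r ^ α * m) ![0, r ^ α]) ∧ Finite (U 3 (r ^ α * m) ![r, r, r]) := by
  constructor
  · intro h
    exact ⟨x_LFD.1 _ _ (dvd_mul_right _ _) h, x_LFD.1 _ _ (dvd_mul_left _ _) h, u_finite h,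
      u_finite h⟩
  · rintro ⟨h1, h2, h3, h4⟩
    have hs' : Group.IsSolvable (U 2 (r ^ α * m) ![0, r ^ α]) ∧
        Group.IsSolvable (U 3 (r ^ α * m) ![r, r, r]) := by
      rcases hs with hs | hs
      · exact ⟨sol_two_primes (pos_of hr hm) hs u_exp, sol_two_primes (pos_of hr hm) hs u_exp⟩
      · exact hs
    intro G _ hG
    exact Hy.lf hr hm h2 α hex h1 G (hy_of_u hs'.1 hs'.2 hG)

theorem crit2 (hm : ¬ 2 ∣ m) (hs : (2 * m).primeFactors.card ≤ 2 ∨
      Group.IsSolvable (U 2 (2 * m) ![0, 2]) ∧ Group.IsSolvable (U 2 (2 * m) ![m, m])) :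
    LocFin (2 * m) ↔ LocFin m ∧ Finite (U 2 (2 * m) ![0, 2]) ∧ Finite (U 2 (2 * m) ![m, m]) := by
  constructor
  · intro h
    exact ⟨x_LFD.1 _ _ (dvd_mul_left _ _) h, u_finite h, u_finite h⟩
  · rintro ⟨h2, h3, h4⟩
    have hpos : 1 ≤ 2 * m := by
      have := Nat.pos_of_ne_zero (ne_zero_of hm)
      omega
    have hs' : Group.IsSolvable (U 2 (2 * m) ![0, 2]) ∧ Group.IsSolvable (U 2 (2 * m) ![m, m]) := by
      rcases hs with hs | hs
      · exact ⟨sol_two_primes hpos hs u_exp, sol_two_primes hpos hs u_exp⟩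
      · exact hs
    intro G _ hG
    exact (hz_of_u hs'.1 hs'.2 hG).lf hm h2

/-- a divisor of the exponent -/
theorem u_two_dvd {a b n n' : ℕ} (hn : n ∣ n') (h : Finite (U 2 n' ![a, b])) {b' : ℕ}
    (hb : b' ∣ b) : Finite (U 2 n ![a, b']) := by
  have h0 : (QuotientGroup.mk (FreeGroup.of 0) : U 2 n ![a, b']) ^ a = 1 := by
    rw [← QuotientGroup.mk_pow, QuotientGroup.eq_one_iff]
    exact Subgroup.subset_normalClosure (Or.inr ⟨0, rfl⟩)
  have h1 : (QuotientGroup.mk (FreeGroup.of 1) : U 2 n ![a, b']) ^ b' = 1 := by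
    rw [← QuotientGroup.mk_pow, QuotientGroup.eq_one_iff]
    exact Subgroup.subset_normalClosure (Or.inr ⟨1, rfl⟩)
  obtain ⟨c, rfl⟩ := hn
  obtain ⟨b'', rfl⟩ := hb
  obtain ⟨f, hf⟩ := u_two (n := n * c) (a := a) (b := b' * b'') (G := U 2 n ![a, b'])
    (fun x => by rw [pow_mul, u_exp, one_pow]) h0 (by rw [pow_mul, h1, one_pow])
  have h2 : ({(QuotientGroup.mk (FreeGroup.of 0) : U 2 n ![a, b']),
      QuotientGroup.mk (FreeGroup.of 1)} : Set _) =
      Set.range fun i : Fin 2 => (QuotientGroup.mk (FreeGroup.of i) : U 2 n ![a, b']) := by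
    ext g
    simp only [Set.mem_range, Fin.exists_fin_succ, Set.mem_insert_iff, Set.mem_singleton_iff]
    simp [eq_comm]
  rw [h2, u_gen] at hf
  have h3 := fin_range h f hf
  exact Finite.of_equiv _ (Subgroup.topEquiv (G := U 2 n ![a, b'])).toEquiv

end Run7.h806.RL
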