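import Mathlib
import Pool.Agent.Run7.h806.RL.Uni

set_option autoImplicit false

/-!
# Two `r`-elements and an `r'`-element
-/

namespace Run7.h806.RL

open Pool.Agent.H32BU Pool.Agent.W629

universe u v

variable {r : ℕ} {G : Type u} [Group G]

/-- the data of the second theorem -/
structure DatB (hr : r.Prime) (G : Type u) [Group G] (S : Set G) : Prop where
  per : ∀ x : G, IsOfFinOrder x
  el : ∀ s ∈ S, El (PR r) s
  cj : ∀ s ∈ S, ∀ g : G, g * s * g⁻¹ ∈ S
  ha : ∀ s ∈ S, ∀ z : G, El (PR r) z → Finite (Subgroup.closure {s, z}) ∧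
    Ok hr (Subgroup.closure {s, z}) s
  hb : ∀ s ∈ S, ∀ t ∈ S, Rel r s t → ∀ z : G, El (PR' r) z → El (PR' r) (s⁻¹ * t * z)

namespace DatB

variable {hr : r.Prime} {S : Set G}

theorem le_or (D : DatB hr G S) (h1 : O1 hr G = ⊥) : S ⊆ Or hr G := by
  have hst : ∀ s ∈ S, ∀ t ∈ S, Rel r s t → s = t := by
    intro s hs t ht h
    have h2 : s⁻¹ * t ∈ O1 hr G := ⟨h, fun z hz => D.hb s hs t ht h z hz⟩
    rw [h1, Subgroup.mem_bot] at h2
    exact inv_mul_eq_one.1 h2
  intro s hs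
  refine ⟨D.el s hs, fun z hz => ?_⟩
  obtain ⟨hf, m1, h2⟩ := D.ha s hs z hz
  set E := Subgroup.closure ({s, z} : Set G) with hE
  set s' : E := ⟨s, m1⟩ with hs'
  set z' : E := ⟨z, Subgroup.subset_closure (Set.mem_insert_of_mem s rfl)⟩ with hz1
  have h3 : El (PR r) s' := el_sub.2 (D.el s hs)
  have h4 : ∀ x ∈ O1 hr E, x * s' = s' * x := by
    intro x hx
    have h5 : s'⁻¹ * (x * s' * x⁻¹) ∈ O1 hr E := by
      have e : s'⁻¹ * (x * s' * x⁻¹) = s'⁻¹ * x * s' * x⁻¹ := by group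
      rw [e]
      refine mul_mem ?_ (inv_mem hx)
      have := (inferInstance : (O1 hr E).Normal).conj_mem _ hx s'⁻¹
      rwa [inv_inv] at this
    have h6 : Rel r s ((x : G) * s * (x : G)⁻¹) := el_sub.1 (rd_el h5)
    have h7 := hst s hs _ (D.cj s hs x) h6
    refine Subtype.ext ?_
    show (x : G) * s = s * x
    exact (eq_mul_inv_iff_mul_eq.1 h7).symm
  have h5 := d_lem hr h3 h2 h4
  have h6 : El (PR r) (s' * z') := h5.2 z' (el_sub.2 hz)
  exact el_sub.1 h6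

/-- lifting of `r`-elements and `r'`-elements -/
theorem _root_.Run7.h806.RL.lift_el (hr : r.Prime) (per : ∀ x : G, IsOfFinOrder x) (N : Subgroup G)
    [N.Normal] {z : G ⧸ N} (hz : El (PR r) z) : ∃ y : G, El (PR r) y ∧ (y : G ⧸ N) = z := by
  obtain ⟨z, rfl⟩ := QuotientGroup.mk_surjective z
  obtain ⟨a, b, h1, h2, h3, h4, h5⟩ := parts hr (per z)
  refine ⟨z ^ a, h1, ?_⟩
  rw [QuotientGroup.mk_pow]
  exact (h4 _ (by rw [← QuotientGroup.mk_pow, pow_orderOf_eq_one, QuotientGroup.mk_one]) hz).1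

theorem _root_.Run7.h806.RL.lift_el' (hr : r.Prime) (per : ∀ x : G, IsOfFinOrder x) (N : Subgroup G)
    [N.Normal] {z : G ⧸ N} (hz : El (PR' r) z) : ∃ y : G, El (PR' r) y ∧ (y : G ⧸ N) = z := by
  obtain ⟨z, rfl⟩ := QuotientGroup.mk_surjective z
  obtain ⟨a, b, h1, h2, h3, h4, h5⟩ := parts hr (per z)
  refine ⟨z ^ b, h2, ?_⟩
  rw [QuotientGroup.mk_pow]
  exact (h5 _ (by rw [← QuotientGroup.mk_pow, pow_orderOf_eq_one, QuotientGroup.mk_one]) hz).1

theorem quot (D : DatB hr G S) :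
    DatB hr (G ⧸ O1 hr G) (QuotientGroup.mk' (O1 hr G) '' S) := by
  have hrel : ∀ {x : G}, El (PR' r) (x : G ⧸ O1 hr G) → El (PR' r) x := fun h =>
    el_of_mk (exPR' hr) (fun x hx => rd_el hx) h
  refine ⟨per_quot D.per _, ?_, ?_, ?_, ?_⟩
  · rintro _ ⟨s, hs, rfl⟩
    exact (D.el s hs).map _
  · rintro _ ⟨s, hs, rfl⟩ g
    obtain ⟨g, rfl⟩ := QuotientGroup.mk_surjective g
    exact ⟨g * s * g⁻¹, D.cj s hs g, rfl⟩
  · rintro _ ⟨s, hs, rfl⟩ z hz
    obtain ⟨z, hz', rfl⟩ := lift_el hr D.per _ hz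
    obtain ⟨h1, h2⟩ := D.ha s hs z hz'
    have h3 := h2.map (QuotientGroup.mk' (O1 hr G))
    have h4 := finite_map (E := Subgroup.closure {s, z}) (QuotientGroup.mk' (O1 hr G))
    rw [closure_map_pair] at h3 h4
    exact ⟨h4, h3⟩
  · rintro _ ⟨s, hs, rfl⟩ _ ⟨t, ht, rfl⟩ h1 z hz
    obtain ⟨z, rfl⟩ := QuotientGroup.mk_surjective z
    exact (D.hb s hs t ht (hrel h1) z (hrel hz)).map (QuotientGroup.mk' (O1 hr G))

theorem le_o2 (D : DatB hr G S) : S ⊆ O2 hr G := by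
  intro s hs
  exact mem_o2.2 (D.quot.le_or (rd_quot _) ⟨s, hs, rfl⟩)

end DatB

/-- the condition on `s⁻¹ t z` from a subgroup containing these elements -/
theorem hb_of {hr : r.Prime} {E : Subgroup G} {s t z : G} (hs : Ok hr E s) (ht : Ok hr E t)
    (ht' : El (PR r) t) (hz : z ∈ E) (h : Rel r s t) (hz' : El (PR' r) z) :
    El (PR' r) (s⁻¹ * t * z) := by
  obtain ⟨m1, o1⟩ := hs
  obtain ⟨m2, o2⟩ := ht
  have f1 := mk_eq hr o1 (t := (⟨t, m2⟩ : E)) (el_sub.2 ht') (el_sub.2 h)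
  have f2 : (⟨s, m1⟩ : E)⁻¹ * ⟨t, m2⟩ ∈ O1 hr E := QuotientGroup.eq.1 f1
  have f3 := f2.2 (⟨z, hz⟩ : E) (el_sub.2 hz')
  exact el_sub.1 f3

/-- the local theorem, second version -/
theorem rlen_localB (hr : r.Prime) (per : ∀ x : G, IsOfFinOrder x)
    (h2 : ∀ s t : G, (∃ k : ℕ, s ^ r ^ k = 1) → (∃ k : ℕ, t ^ r ^ k = 1) →
      Finite (Subgroup.closure {s, t}))
    (h3 : ∀ s t z : G, (∃ k : ℕ, s ^ r ^ k = 1) → (∃ k : ℕ, t ^ r ^ k = 1) →
      ¬ r ∣ orderOf z → RLen r (Subgroup.closure {s, t, z})) : RLen r G := by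
  refine rlen_of_o2 hr per fun s hs => ?_
  refine DatB.le_o2 (hr := hr) (S := {s | El (PR r) s}) ⟨per, fun s hs => hs,
    fun s hs g => hs.conj g, ?_, ?_⟩ hs
  · intro s hs z hz
    refine ⟨h2 s z (el_iff.1 hs) (el_iff.1 hz), ?_⟩
    have h4 := h3 s z 1 (el_iff.1 hs) (el_iff.1 hz) (by
      rw [orderOf_one]
      exact fun h => hr.one_lt.ne' (Nat.dvd_one.1 h))
    have h5 : Ok hr (Subgroup.closure {s, z, 1}) s :=
      ⟨Subgroup.subset_closure (by simp), h4.o2 hr (el_sub.2 hs)⟩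
    refine h5.mono (Subgroup.closure_mono ?_) (Subgroup.subset_closure (by simp))
    rintro x (rfl | rfl)
    · exact Or.inl rfl
    · exact Or.inr (Or.inl rfl)
  · intro s hs t ht h z hz
    have h4 := h3 s t z (el_iff.1 hs) (el_iff.1 ht) (order_el hz)
    exact hb_of (E := Subgroup.closure {s, t, z})
      ⟨Subgroup.subset_closure (by simp), h4.o2 hr (el_sub.2 hs)⟩
      ⟨Subgroup.subset_closure (by simp), h4.o2 hr (el_sub.2 ht)⟩ ht
      (Subgroup.subset_closure (by simp)) h hz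

/-! ## Bounded exponent -/

variable {α m : ℕ}

/-- the hypotheses on a group, second version -/
structure HyB (r α m : ℕ) (G : Type u) [Group G] : Prop where
  exp : ∀ x : G, x ^ (r ^ α * m) = 1
  three : ∀ s t z : G, s ^ r ^ α = 1 → t ^ r ^ α = 1 → z ^ m = 1 →
    Group.IsSolvable (Subgroup.closure {s, t, z})

/-- powers of elements of maximal order in a subgroup -/
theorem ok_hh (hr : r.Prime) (hm : ¬ r ∣ m) (hα : 1 ≤ α) (hex : Gen r α m)
    (exp : ∀ x : G, x ^ (r ^ α * m) = 1) {E : Subgroup G} [Finite E] (hE : Group.IsSolvable E)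
    {x : G} (hx : x ^ r ^ α = 1) (hxE : x ∈ E) : Ok hr E (x ^ r ^ (α - 1)) := by
  refine ⟨pow_mem hxE _, ?_⟩
  have h4 := hh_u hr hm hα hex (F := E)
    (fun y => Subtype.ext (by rw [Subgroup.coe_pow, exp, Subgroup.coe_one])) hE (x := ⟨x, hxE⟩)
    (Subtype.ext hx)
  exact h4

theorem HyB.dat (hr : r.Prime) (hm : ¬ r ∣ m) (hα : 1 ≤ α) (hex : Gen r α m) (h : HyB r α m G) :
    DatB hr G (Sα r α G) := by
  have per := per_exp (pos_of (α := α) hr hm) h.exp
  refine ⟨per, ?_, ?_, ?_, ?_⟩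
  · intro s hs
    exact ⟨r, ⟨1, (pow_one r).symm⟩, s_pow hα hs⟩
  · rintro _ ⟨x, hx, rfl⟩ g
    exact ⟨g * x * g⁻¹, by rw [conj_pow, hx, mul_one, mul_inv_cancel], by rw [conj_pow]⟩
  · rintro _ ⟨x, hx, rfl⟩ z hz
    have h1 := h.three x z 1 hx (pow_r hr hm hz (h.exp z)) (one_pow m)
    have h2 := fin_sol per (Set.toFinite {x, z, 1}) h1
    have h3 := ok_hh hr hm hα hex h.exp h1 hx (Subgroup.subset_closure (by simp))
    have hle : Subgroup.closure {x ^ r ^ (α - 1), z} ≤ Subgroup.closure ({x, z, 1} : Set G) := by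
      rw [Subgroup.closure_le]
      rintro y (rfl | rfl)
      · exact pow_mem (Subgroup.subset_closure (by simp)) _
      · exact Subgroup.subset_closure (by simp)
    exact ⟨Finite.of_injective _ (Subgroup.inclusion_injective hle),
      h3.mono hle (Subgroup.subset_closure (by simp))⟩
  · rintro _ ⟨x, hx, rfl⟩ _ ⟨y, hy, rfl⟩ hrel z hz
    have h1 := h.three x y z hx hy (pow_m hr hz (h.exp z))
    have h2 := fin_sol per (Set.toFinite {x, y, z}) h1
    refine hb_of (E := Subgroup.closure {x, y, z})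
      (ok_hh hr hm hα hex h.exp h1 hx (Subgroup.subset_closure (by simp)))
      (ok_hh hr hm hα hex h.exp h1 hy (Subgroup.subset_closure (by simp)))
      (el_iff.2 ⟨α, ?_⟩) (Subgroup.subset_closure (by simp)) hrel hz
    rw [← pow_mul, mul_comm, pow_mul, hy, one_pow]

theorem HyB.next (hr : r.Prime) (hm : ¬ r ∣ m) (hα : 1 ≤ α) (hex : Gen r α m) (h : HyB r α m G) :
    HyB r (α - 1) m (G ⧸ O2 hr G) := by
  have per := per_exp (pos_of (α := α) hr hm) h.exp
  refine ⟨exp_o2 hr h.exp (h.dat hr hm hα hex).le_o2, ?_⟩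
  intro s t z hs ht hz
  obtain ⟨s, hs', rfl⟩ := lift_el hr per _ (el_iff.2 ⟨_, hs⟩)
  obtain ⟨t, ht', rfl⟩ := lift_el hr per _ (el_iff.2 ⟨_, ht⟩)
  obtain ⟨z, hz', rfl⟩ := lift_el' hr per _ (⟨m, hm, hz⟩ : El (PR' r) z)
  have h6 := h.three s t z (pow_r hr hm hs' (h.exp _)) (pow_r hr hm ht' (h.exp _))
    (pow_m hr hz' (h.exp _))
  have h7 : Group.IsSolvable ((Subgroup.closure {s, t, z}).map (QuotientGroup.mk' (O2 hr G))) :=
    Group.isSolvable_of_surjective ((QuotientGroup.mk' (O2 hr G)).subgroupMap_surjective _)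
  rw [closure_map_triple] at h7
  exact h7

theorem HyB.series (hr : r.Prime) (hm : ¬ r ∣ m) : ∀ (α : ℕ), Gen r α m →
    ∀ (G : Type u) [Group G], HyB r α m G → Series (r ^ α) m α G := by
  intro α
  induction α with
  | zero =>
    intro _ G _ h
    refine series_zero fun x => ?_
    have := h.exp x
    rwa [pow_zero, one_mul] at this
  | succ α ih =>
    intro hex G _ h
    have h1 := h.next hr hm (by omega) hex
    have h2 := ih (hex.mono (by omega)) _ h1
    exact series_step hr hm h.exp (h2.mono (pow_dvd_pow r (by omega)))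

theorem HyB.lf (hr : r.Prime) (hm : ¬ r ∣ m) (hLm : LocFin m) : ∀ (α : ℕ), Gen r α m →
    LocFin (r ^ α) → ∀ (G : Type) [Group G], HyB r α m G → LF G := by
  intro α
  induction α with
  | zero =>
    intro _ _ G _ h
    refine hLm G fun x => ?_
    have := h.exp x
    rwa [pow_zero, one_mul] at this
  | succ α ih =>
    intro hex hL G _ h
    have h1 := h.next hr hm (by omega) hex
    exact lf_step hr hm h.exp hLm hL (ih (hex.mono (by omega))
      (x_LFD.1 _ _ (pow_dvd_pow r (by omega)) hL) _ h1)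

/-- the second criterion: one group with three generators -/
theorem critB (hr : r.Prime) (hm : ¬ r ∣ m) (hex : Gen r α m)
    (hs : (r ^ α * m).primeFactors.card ≤ 2 ∨
      Group.IsSolvable (U 3 (r ^ α * m) ![r ^ α, r ^ α, m])) :
    LocFin (r ^ α * m) ↔ LocFin (r ^ α) ∧ LocFin m ∧
      Finite (U 3 (r ^ α * m) ![r ^ α, r ^ α, m]) := by
  constructor
  · intro h
    exact ⟨x_LFD.1 _ _ (dvd_mul_right _ _) h, x_LFD.1 _ _ (dvd_mul_left _ _) h, u_finite h⟩
  · rintro ⟨h1, h2, h3⟩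
    have hs' : Group.IsSolvable (U 3 (r ^ α * m) ![r ^ α, r ^ α, m]) := by
      rcases hs with hs | hs
      · exact sol_two_primes (pos_of hr hm) hs u_exp
      · exact hs
    intro G _ hG
    refine HyB.lf hr hm h2 α hex h1 G ⟨hG, fun s t z hs ht hz => ?_⟩
    obtain ⟨f, hf⟩ := u_three hG hs ht hz
    exact sol_range hs' f hf

end Run7.h806.RL
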