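import Mathlib
import Pool.Agent.Run7.h806.RL.CoreB
import Pool.Agent.Y50.FE.Word
import Pool.Agent.R669.Wreath

set_option autoImplicit false

/-!
# Wreath products
-/

namespace Run7.h806.RL

open Pool.Agent.H32BU Pool.Agent.W629
open Pool.Agent.R669 (wr_exp wr_two vv vv_pow ev1 ev1_finite wr_pow_right wr_pow_left)

universe u v

section

variable {H Q : Type} [Group H] [Group Q]

/-- the elements of `K` with trivial second component -/
def K0 (K : Subgroup (RegularWreathProduct H Q)) : Subgroup (RegularWreathProduct H Q) where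
  carrier := {w | w ∈ K ∧ w.right = 1}
  one_mem' := ⟨one_mem _, rfl⟩
  mul_mem' := by
    rintro a b ⟨h1, h2⟩ ⟨h3, h4⟩
    exact ⟨mul_mem h1 h3, by rw [RegularWreathProduct.mul_right, h2, h4, one_mul]⟩
  inv_mem' := by
    rintro a ⟨h1, h2⟩
    exact ⟨inv_mem h1, by rw [RegularWreathProduct.inv_right, h2, inv_one]⟩

/-- evaluation at `1` -/
def evHom (K : Subgroup (RegularWreathProduct H Q)) : K0 K →* H where
  toFun w := (w : RegularWreathProduct H Q).left 1
  map_one' := rfl
  map_mul' := by
    intro a b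
    rw [Subgroup.coe_mul, RegularWreathProduct.mul_left, Pi.mul_apply, a.2.2]
    simp

theorem ev1_sol (K : Subgroup (RegularWreathProduct H Q)) (h : Group.IsSolvable K) :
    Group.IsSolvable (ev1 K) := by
  have h1 : Group.IsSolvable (K0 K) := sol_mono (fun x hx => hx.1) h
  refine sol_range h1 (evHom K) ?_
  ext x
  constructor
  · rintro ⟨w, rfl⟩
    exact ⟨w, w.2.1, w.2.2, rfl⟩
  · rintro ⟨w, h1, h2, rfl⟩
    exact ⟨⟨w, h1, h2⟩, rfl⟩

end

/-- cyclic groups -/
theorem cyc {d : ℕ} (hd : 2 ≤ d) : ∃ q : Multiplicative (ZMod d),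
    orderOf q = d ∧ (∀ x, x ∈ Subgroup.zpowers q) ∧ ∀ x : Multiplicative (ZMod d), x ^ d = 1 := by
  have : NeZero d := ⟨by omega⟩
  refine ⟨Multiplicative.ofAdd 1, ?_, ?_, ?_⟩
  · rw [orderOf_ofAdd_eq_addOrderOf]
    exact ZMod.addOrderOf_one d
  · intro x
    refine ⟨((Multiplicative.toAdd x : ZMod d).val : ℤ), ?_⟩
    change (Multiplicative.ofAdd (1 : ZMod d)) ^ ((Multiplicative.toAdd x : ZMod d).val : ℤ) = x
    rw [zpow_natCast]
    change Multiplicative.ofAdd ((Multiplicative.toAdd x : ZMod d).val • (1 : ZMod d)) = x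
    rw [nsmul_eq_mul, mul_one, ZMod.natCast_zmod_val]
    rfl
  · intro q
    have h1 : d • (Multiplicative.toAdd q) = 0 := by
      rw [nsmul_eq_mul, ZMod.natCast_self, zero_mul]
    exact h1

theorem vv_one_pow {H Q : Type} [Group H] [Group Q] [DecidableEq Q] (q : Q) (j : ℕ) :
    (vv (1 : H) q) ^ j = ⟨fun _ => 1, q ^ j⟩ := by
  induction j with
  | zero =>
    rw [pow_zero, pow_zero]
    rfl
  | succ j ih =>
    rw [pow_succ, ih]
    refine RegularWreathProduct.ext ?_ ?_
    · funext x
      rw [RegularWreathProduct.mul_left]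
      simp [vv]
    · rw [RegularWreathProduct.mul_right, pow_succ]
      rfl

theorem base_pow {H Q : Type} [Group H] [Group Q] {F : Q → H} {k : ℕ} (h : ∀ x, F x ^ k = 1) :
    (⟨F, 1⟩ : RegularWreathProduct H Q) ^ k = 1 := by
  refine RegularWreathProduct.ext ?_ ?_
  · funext x
    rw [wr_pow_left _ rfl]
    exact h x
  · rw [wr_pow_right]
    exact one_pow k

/-- three elements from two, for a proper multiple of the exponent -/
theorem three_of_mul {d k n : ℕ} (hd : 2 ≤ d) {G : Type}
    [Group G] (hG : ∀ x : G, x ^ n = 1) {z s t : G} (hs : s ^ k = 1) (ht : t ^ k = 1) :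
    (Finite (U 2 (d * n) ![0, k]) → Finite (Subgroup.closure ({s, t, z} : Set G))) ∧
    (Group.IsSolvable (U 2 (d * n) ![0, k]) →
      Group.IsSolvable (Subgroup.closure ({s, t, z} : Set G))) := by
  classical
  obtain ⟨q, ho, hq, hQ⟩ := cyc hd
  have hq1 : q⁻¹ ≠ 1 := by
    intro h3
    rw [inv_eq_one, ← orderOf_eq_one_iff, ho] at h3
    omega
  let F : Multiplicative (ZMod d) → G := fun x => if x = 1 then s else t
  have hF1 : F 1 = s := if_pos rfl
  have hF2 : F q⁻¹ = t := if_neg hq1
  have hF : (⟨F, 1⟩ : RegularWreathProduct G (Multiplicative (ZMod d))) ^ k = 1 := by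
    refine base_pow fun x => ?_
    show (if x = 1 then s else t) ^ k = 1
    split_ifs
    · exact hs
    · exact ht
  obtain ⟨f, hf⟩ := u_two (n := d * n) (a := 0) (b := k)
    (G := RegularWreathProduct G (Multiplicative (ZMod d))) (wr_exp hG hQ)
    (x := vv z q) (y := ⟨F, 1⟩) (pow_zero _) hF
  set K : Subgroup (RegularWreathProduct G (Multiplicative (ZMod d))) :=
    Subgroup.closure {vv z q, ⟨F, 1⟩} with hK
  have hv : vv z q ∈ K := Subgroup.subset_closure (Or.inl rfl)
  have hu : (⟨F, 1⟩ : RegularWreathProduct G (Multiplicative (ZMod d))) ∈ K :=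
    Subgroup.subset_closure (Or.inr rfl)
  have e1 : z ∈ ev1 K := by
    refine ⟨(vv z q) ^ (orderOf q), pow_mem hv _, ?_, ?_⟩
    · rw [wr_pow_right]
      exact pow_orderOf_eq_one q
    · have h := vv_pow z q (orderOf q - 1) (by omega)
      rwa [Nat.sub_add_cancel (by omega)] at h
  have e2 : s ∈ ev1 K := ⟨_, hu, rfl, hF1⟩
  have e3 : t ∈ ev1 K := by
    have h1 : z * t * z⁻¹ ∈ ev1 K := by
      refine ⟨vv z q * ⟨F, 1⟩ * (vv z q)⁻¹, mul_mem (mul_mem hv hu) (inv_mem hv), ?_, ?_⟩
      · rw [RegularWreathProduct.mul_right, RegularWreathProduct.mul_right,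
          RegularWreathProduct.inv_right]
        simp
      · have h2 : (vv z q).left 1 = z := if_pos rfl
        have h3 : (vv z q).right = q := rfl
        rw [RegularWreathProduct.mul_left, RegularWreathProduct.mul_left,
          RegularWreathProduct.inv_left]
        simp only [Pi.mul_apply, RegularWreathProduct.mul_right, h2, h3, mul_one]
        rw [hF2]
        simp [h2]
    have h2 := mul_mem (mul_mem (inv_mem e1) h1) e1
    have h3 : z⁻¹ * (z * t * z⁻¹) * z = t := by group
    rwa [h3] at h2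
  have hle : Subgroup.closure ({s, t, z} : Set G) ≤ ev1 K := by
    rw [Subgroup.closure_le]
    rintro y (rfl | rfl | rfl)
    · exact e2
    · exact e3
    · exact e1
  constructor
  · intro h
    have h1 : Finite K := fin_range h f hf
    have h2 := ev1_finite K
    exact Finite.of_injective _ (Subgroup.inclusion_injective hle)
  · intro h
    exact sol_mono hle (ev1_sol K (sol_range h f hf))

theorem u_three_top {n : ℕ} (e : Fin 3 → ℕ) :
    Subgroup.closure ({(QuotientGroup.mk (FreeGroup.of 0) : U 3 n e),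
      QuotientGroup.mk (FreeGroup.of 1), QuotientGroup.mk (FreeGroup.of 2)} : Set _) = ⊤ := by
  rw [← u_gen (k := 3) (n := n) (e := e)]
  congr 1
  ext g
  simp only [Set.mem_range, Fin.exists_fin_succ, Set.mem_insert_iff, Set.mem_singleton_iff]
  simp [eq_comm]

theorem u_rel {k n : ℕ} (e : Fin k → ℕ) (i : Fin k) :
    (QuotientGroup.mk (FreeGroup.of i) : U k n e) ^ e i = 1 := by
  rw [← QuotientGroup.mk_pow, QuotientGroup.eq_one_iff]
  exact Subgroup.subset_normalClosure (Or.inr ⟨i, rfl⟩)

/-- the universal group with three generators -/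
theorem u_three_of_mul {d k n l : ℕ} (hd : 2 ≤ d) :
    (Finite (U 2 (d * n) ![0, k]) → Finite (U 3 n ![k, k, l])) ∧
    (Group.IsSolvable (U 2 (d * n) ![0, k]) → Group.IsSolvable (U 3 n ![k, k, l])) := by
  have h0 := u_rel (n := n) ![k, k, l] 0
  have h1 := u_rel (n := n) ![k, k, l] 1
  have h := three_of_mul hd (G := U 3 n ![k, k, l]) u_exp (k := k)
    (z := QuotientGroup.mk (FreeGroup.of 2)) h0 h1
  rw [u_three_top] at h
  constructor
  · intro h2
    have := h.1 h2
    exact Finite.of_equiv _ (Subgroup.topEquiv (G := U 3 n ![k, k, l])).toEquiv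
  · intro h2
    have := h.2 h2
    exact Group.isSolvable_of_surjective
      (f := (Subgroup.topEquiv (G := U 3 n ![k, k, l])).toMonoidHom)
      (Subgroup.topEquiv (G := U 3 n ![k, k, l])).surjective

variable {r α m : ℕ}

/-- one group with two generators for a proper multiple of the exponent -/
theorem crit_mul {d : ℕ} (hd : 2 ≤ d) (hr : r.Prime) (hm : ¬ r ∣ m)
    (hex : Gen r α m) (hs : (r ^ α * m).primeFactors.card ≤ 2 ∨
      Group.IsSolvable (U 2 (d * (r ^ α * m)) ![0, r ^ α]))
    (h : Finite (U 2 (d * (r ^ α * m)) ![0, r ^ α])) :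
    LocFin (r ^ α * m) ↔ LocFin (r ^ α) ∧ LocFin m := by
  have h1 := u_three_of_mul (k := r ^ α) (n := r ^ α * m) (l := m) hd
  rw [critB hr hm hex (hs.imp_right h1.2)]
  exact ⟨fun h => ⟨h.1, h.2.1⟩, fun h' => ⟨h'.1, h'.2, h1.1 h⟩⟩

/-! ## The exponent five -/

/-- `5 ∈ 𝓛` -/
theorem five_of_three (h : ∀ x y z : Bu 3 5, Finite (Subgroup.closure ({x, y, z} : Set (Bu 3 5)))) :
    LocFin 5 := by
  have h3 := h (Pool.Agent.Y50.FE.bg 5 0) (Pool.Agent.Y50.FE.bg 5 1) (Pool.Agent.Y50.FE.bg 5 2)
  rw [Pool.Agent.Y50.FE.bg_gen] at h3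
  exact (inL_iff.{0} x_LFD 5).1
    (Pool.Agent.Y50.FE.inL_five.{0}.2 (Finite.of_equiv _ (Subgroup.topEquiv (G := Bu 3 5)).toEquiv))

/-- a cyclic top group of order `k ≥ 3` -/
theorem fin_cyc {k n : ℕ} (hk : 3 ≤ k) {G : Type} [Group G] (hG : ∀ x : G, x ^ n = 1) (a b c : G)
    (h : ∀ (W : Type) [Group W], (∀ w : W, w ^ (k * n) = 1) → ∀ x y : W, x ^ n = 1 → y ^ k = 1 →
      Finite (Subgroup.closure ({x, y} : Set W))) :
    Finite (Subgroup.closure ({a, b, c} : Set G)) := by
  classical
  obtain ⟨q, ho, hq, hQ⟩ := cyc (d := k) (by omega)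
  have hq1 : q ≠ 1 := by
    intro h3
    rw [← orderOf_eq_one_iff, ho] at h3
    omega
  have hq2 : q ^ 2 ≠ 1 := by
    intro h3
    have := orderOf_dvd_of_pow_eq_one h3
    rw [ho] at this
    have := Nat.le_of_dvd (by norm_num) this
    omega
  have hq3 : q ^ 2 ≠ q := by
    intro h3
    rw [pow_two] at h3
    exact hq1 (mul_eq_left.1 h3)
  let F : Multiplicative (ZMod k) → G := fun x => if x = 1 then a else if x = q then b else c
  have h1 : Finite (Subgroup.closure ({⟨F, 1⟩, vv 1 q} :
      Set (RegularWreathProduct G (Multiplicative (ZMod k))))) := by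
    refine h _ (wr_exp hG hQ) _ _ (base_pow fun x => hG _) ?_
    rw [vv_one_pow, hQ]
    rfl
  have h2 := wr_two 1 F q hq (by omega) h1
  have hle : Subgroup.closure ({a, b, c} : Set G) ≤ Subgroup.closure (insert 1 (Set.range F)) := by
    rw [Subgroup.closure_le]
    rintro x (rfl | rfl | rfl)
    · exact Subgroup.subset_closure (Or.inr ⟨1, if_pos rfl⟩)
    · refine Subgroup.subset_closure (Or.inr ⟨q, ?_⟩)
      show (if q = 1 then a else if q = q then x else c) = x
      rw [if_neg hq1, if_pos rfl]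
    · refine Subgroup.subset_closure (Or.inr ⟨q ^ 2, ?_⟩)
      show (if q ^ 2 = 1 then a else if q ^ 2 = q then b else x) = x
      rw [if_neg hq2, if_neg hq3]
  exact Finite.of_injective _ (Subgroup.inclusion_injective hle)

/-- the four-group as top group, two generators -/
theorem fin_four {n : ℕ} (h : Finite (U 2 (2 * n) ![0, 2])) {G : Type}
    [Group G] (hG : ∀ x : G, x ^ n = 1) (a b c : G) :
    Finite (Subgroup.closure ({a, b, c} : Set G)) := by
  classical
  let Q := Multiplicative (ZMod 2 × ZMod 2)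
  let p : Q := Multiplicative.ofAdd (1, 0)
  let q : Q := Multiplicative.ofAdd (0, 1)
  have hQ : ∀ x : Q, x ^ 2 = 1 := by decide
  have n1 : p ≠ 1 := by decide
  have n2 : q ≠ 1 := by decide
  have n3 : q ≠ p := by decide
  have n4 : p * q ≠ 1 := by decide
  have n5 : p * q ≠ p := by decide
  have n6 : p * q ≠ q := by decide
  have i1 : p⁻¹ = p := by decide
  have i2 : q⁻¹ = q := by decide
  have hpp : p * p = 1 := by decide
  have hqq : q * q = 1 := by decide
  have hqp : q * p = p * q := by decide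
  let F : Q → G := fun x => if x = 1 then a else if x = p then b else if x = q then c else 1
  have F1 : F 1 = a := if_pos rfl
  have F2 : F p = b := by
    show (if p = 1 then a else if p = p then b else if p = q then c else 1) = b
    rw [if_neg n1, if_pos rfl]
  have F3 : F q = c := by
    show (if q = 1 then a else if q = p then b else if q = q then c else 1) = c
    rw [if_neg n2, if_neg n3, if_pos rfl]
  have F4 : F (p * q) = 1 := by
    show (if p * q = 1 then a else if p * q = p then b else if p * q = q then c else 1) = 1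
    rw [if_neg n4, if_neg n5, if_neg n6]
  let x : RegularWreathProduct G Q := ⟨F, p⟩
  let t : RegularWreathProduct G Q := ⟨fun _ => 1, q⟩
  have xl : x.left = F := rfl
  have xr : x.right = p := rfl
  have tl : t.left = fun _ => 1 := rfl
  have tr : t.right = q := rfl
  have ht : t ^ 2 = 1 := by
    rw [pow_two]
    refine RegularWreathProduct.ext ?_ ?_
    · funext y
      rw [RegularWreathProduct.mul_left]
      simp [tl]
    · rw [RegularWreathProduct.mul_right, tr, hqq]
      rfl
  obtain ⟨f, hf⟩ := u_two (n := 2 * n) (a := 0) (b := 2) (G := RegularWreathProduct G Q)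
    (wr_exp hG hQ) (x := x) (y := t) (pow_zero _) ht
  set K : Subgroup (RegularWreathProduct G Q) := Subgroup.closure {x, t} with hK
  have h1 : Finite K := fin_range h f hf
  have h2 := ev1_finite K
  have hx : x ∈ K := Subgroup.subset_closure (Or.inl rfl)
  have htK : t ∈ K := Subgroup.subset_closure (Or.inr rfl)
  have e1 : a * b ∈ ev1 K := by
    refine ⟨x * x, mul_mem hx hx, ?_, ?_⟩
    · rw [RegularWreathProduct.mul_right, xr, hpp]
    · rw [RegularWreathProduct.mul_left, Pi.mul_apply, xl, xr, mul_one, i1, F1, F2]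
  have e2 : c ∈ ev1 K := by
    refine ⟨t * (x * x) * t, mul_mem (mul_mem htK (mul_mem hx hx)) htK, ?_, ?_⟩
    · simp only [RegularWreathProduct.mul_right, xr, tr, hpp, mul_one, hqq]
    · simp only [RegularWreathProduct.mul_left, RegularWreathProduct.mul_right, Pi.mul_apply, xl,
        xr, tl, tr, mul_one, one_mul, i1, i2, hpp]
      rw [F3, F4, mul_one]
  have e3 : a ∈ ev1 K := by
    refine ⟨x * t * (x * t), mul_mem (mul_mem hx htK) (mul_mem hx htK), ?_, ?_⟩
    · simp only [RegularWreathProduct.mul_right, xr, tr]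
      decide
    · simp only [RegularWreathProduct.mul_left, RegularWreathProduct.mul_right, Pi.mul_apply, xl,
        xr, tl, tr, mul_one, mul_inv_rev, i1, i2]
      rw [hqp, F4, F1, mul_one]
  have e4 : b ∈ ev1 K := by
    have := mul_mem (inv_mem e3) e1
    rwa [inv_mul_cancel_left] at this
  have hle : Subgroup.closure ({a, b, c} : Set G) ≤ ev1 K := by
    rw [Subgroup.closure_le]
    rintro y (rfl | rfl | rfl)
    · exact e3
    · exact e4
    · exact e2
  exact Finite.of_injective _ (Subgroup.inclusion_injective hle)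

/-- the four-group as top group, three generators -/
theorem fin_four' {n : ℕ} (h : Finite (U 3 (2 * n) ![2, 2, n])) {G : Type}
    [Group G] (hG : ∀ x : G, x ^ n = 1) (a b c : G) :
    Finite (Subgroup.closure ({a, b, c} : Set G)) := by
  classical
  let Q := Multiplicative (ZMod 2 × ZMod 2)
  let p : Q := Multiplicative.ofAdd (1, 0)
  let q : Q := Multiplicative.ofAdd (0, 1)
  have hQ : ∀ x : Q, x ^ 2 = 1 := by decide
  have n1 : p ≠ 1 := by decide
  have n2 : q ≠ 1 := by decide
  have n3 : q ≠ p := by decide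
  have i1 : p⁻¹ = p := by decide
  have i2 : q⁻¹ = q := by decide
  have hpp : p * p = 1 := by decide
  have hqq : q * q = 1 := by decide
  let F : Q → G := fun x => if x = 1 then a else if x = p then b else c
  have F1 : F 1 = a := if_pos rfl
  have F2 : F p = b := by
    show (if p = 1 then a else if p = p then b else c) = b
    rw [if_neg n1, if_pos rfl]
  have F3 : F q = c := by
    show (if q = 1 then a else if q = p then b else c) = c
    rw [if_neg n2, if_neg n3]
  let x : RegularWreathProduct G Q := ⟨fun _ => 1, p⟩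
  let t : RegularWreathProduct G Q := ⟨fun _ => 1, q⟩
  let z : RegularWreathProduct G Q := ⟨F, 1⟩
  have xl : x.left = fun _ => 1 := rfl
  have xr : x.right = p := rfl
  have tl : t.left = fun _ => 1 := rfl
  have tr : t.right = q := rfl
  have zl : z.left = F := rfl
  have zr : z.right = 1 := rfl
  have hx2 : x ^ 2 = 1 := by
    rw [pow_two]
    refine RegularWreathProduct.ext ?_ ?_
    · funext y
      rw [RegularWreathProduct.mul_left]
      simp [xl]
    · rw [RegularWreathProduct.mul_right, xr, hpp]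
      rfl
  have ht2 : t ^ 2 = 1 := by
    rw [pow_two]
    refine RegularWreathProduct.ext ?_ ?_
    · funext y
      rw [RegularWreathProduct.mul_left]
      simp [tl]
    · rw [RegularWreathProduct.mul_right, tr, hqq]
      rfl
  have hz2 : z ^ n = 1 := base_pow (F := F) fun x => hG _
  obtain ⟨f, hf⟩ := u_three (n := 2 * n) (G := RegularWreathProduct G Q)
    (wr_exp hG hQ) hx2 ht2 hz2
  set K : Subgroup (RegularWreathProduct G Q) := Subgroup.closure {x, t, z} with hK
  have h1 : Finite K := fin_range h f hf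
  have h2 := ev1_finite K
  have hx : x ∈ K := Subgroup.subset_closure (Or.inl rfl)
  have ht : t ∈ K := Subgroup.subset_closure (Or.inr (Or.inl rfl))
  have hz : z ∈ K := Subgroup.subset_closure (Or.inr (Or.inr rfl))
  have e1 : a ∈ ev1 K := ⟨z, hz, rfl, F1⟩
  have e2 : b ∈ ev1 K := by
    refine ⟨x * z * x, mul_mem (mul_mem hx hz) hx, ?_, ?_⟩
    · simp only [RegularWreathProduct.mul_right, xr, zr, hpp, mul_one]
    · simp only [RegularWreathProduct.mul_left, Pi.mul_apply, xl, xr, zl, mul_one, one_mul, i1]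
      exact F2
  have e3 : c ∈ ev1 K := by
    refine ⟨t * z * t, mul_mem (mul_mem ht hz) ht, ?_, ?_⟩
    · simp only [RegularWreathProduct.mul_right, tr, zr, hqq, mul_one]
    · simp only [RegularWreathProduct.mul_left, Pi.mul_apply, tl, tr, zl, mul_one, one_mul, i2]
      exact F3
  have hle : Subgroup.closure ({a, b, c} : Set G) ≤ ev1 K := by
    rw [Subgroup.closure_le]
    rintro y (rfl | rfl | rfl)
    · exact e1
    · exact e2
    · exact e3
  exact Finite.of_injective _ (Subgroup.inclusion_injective hle)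

/-- `5 ∈ 𝓛` from the group with second generator of order `r ^ α` -/
theorem five (hr : r.Prime) (hα : 1 ≤ α) (h : Finite (U 2 (r ^ α * 5) ![0, r ^ α])) :
    LocFin 5 := by
  refine five_of_three fun x y z => ?_
  by_cases h2 : r = 2
  · subst h2
    have h3 : Finite (U 2 (2 * 5) ![0, 2]) :=
      u_two_dvd (Nat.mul_dvd_mul_right (dvd_pow_self 2 (by omega)) 5) h (dvd_pow_self 2 (by omega))
    exact fin_four h3 (x_LFD.2.2.2 3 5) x y z
  · have h3 : 3 ≤ r := by
      have := hr.two_le
      omega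
    refine fin_cyc (show 3 ≤ r ^ α from h3.trans (Nat.le_self_pow (by omega) r)) (x_LFD.2.2.2 3 5) x y z ?_
    intro W _ hW x y _ hy
    obtain ⟨f, hf⟩ := u_two (a := 0) (b := r ^ α) hW (pow_zero x) hy
    exact fin_range h f hf

/-- divisors for three generators -/
theorem u_three_dvd {n n' : ℕ} (hn : n ∣ n') {e e' : Fin 3 → ℕ} (he : ∀ i, e i ∣ e' i)
    (h : Finite (U 3 n' e')) : Finite (U 3 n e) := by
  obtain ⟨c, rfl⟩ := hn
  obtain ⟨f, hf⟩ := u_onto (n := n * c) (e := e') (G := U 3 n e)
    (fun x => by rw [pow_mul, u_exp, one_pow])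
    (fun i => (QuotientGroup.mk (FreeGroup.of i) : U 3 n e)) (fun i => by
      obtain ⟨b, hb⟩ := he i
      rw [hb, pow_mul, u_rel, one_pow])
  rw [u_gen] at hf
  have h3 := fin_range h f hf
  exact Finite.of_equiv _ (Subgroup.topEquiv (G := U 3 n e)).toEquiv

/-- `5 ∈ 𝓛` from the group with three generators -/
theorem five' (hr : r.Prime) (hα : 1 ≤ α) (h : Finite (U 3 (r ^ α * 5) ![r ^ α, r ^ α, 5])) :
    LocFin 5 := by
  refine five_of_three fun x y z => ?_
  by_cases h2 : r = 2
  · subst h2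
    have h3 : Finite (U 3 (2 * 5) ![2, 2, 5]) := by
      refine u_three_dvd (Nat.mul_dvd_mul_right (dvd_pow_self 2 (by omega)) 5) ?_ h
      intro i
      fin_cases i
      · exact dvd_pow_self 2 (by omega)
      · exact dvd_pow_self 2 (by omega)
      · exact dvd_rfl
    exact fin_four' h3 (x_LFD.2.2.2 3 5) x y z
  · have h3 : 3 ≤ r := by
      have := hr.two_le
      omega
    refine fin_cyc (show 3 ≤ r ^ α from h3.trans (Nat.le_self_pow (by omega) r)) (x_LFD.2.2.2 3 5) x y z ?_
    intro W _ hW x y hx hy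
    obtain ⟨f, hf⟩ := u_three hW hy (one_pow (r ^ α)) hx
    have h4 := fin_range h f hf
    have hle : Subgroup.closure ({x, y} : Set W) ≤ Subgroup.closure {y, 1, x} := by
      rw [Subgroup.closure_le]
      rintro w (rfl | rfl)
      · exact Subgroup.subset_closure (by simp)
      · exact Subgroup.subset_closure (by simp)
    exact Finite.of_injective _ (Subgroup.inclusion_injective hle)

/-- `5 ∈ 𝓛` from the group with generators of orders `5, 5, m` -/
theorem five'' (hm : 3 ≤ m) (h : Finite (U 3 (5 * m) ![5, 5, m])) : LocFin 5 := by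
  refine five_of_three fun x y z => ?_
  refine fin_cyc hm (x_LFD.2.2.2 3 5) x y z ?_
  intro W _ hW x y hx hy
  obtain ⟨f, hf⟩ := u_three (n := 5 * m) (fun w => by rw [mul_comm]; exact hW w) hx (one_pow 5) hy
  have h4 := fin_range h f hf
  have hle : Subgroup.closure ({x, y} : Set W) ≤ Subgroup.closure {x, 1, y} := by
    rw [Subgroup.closure_le]
    rintro w (rfl | rfl)
    · exact Subgroup.subset_closure (by simp)
    · exact Subgroup.subset_closure (by simp)
  exact Finite.of_injective _ (Subgroup.inclusion_injective hle)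

/-- two odd numbers -/
theorem gen_odd (hr : Odd r) (hm : Odd m) : Gen r α m := by
  intro q hq hqm μ h1 h2 ρ h3 h
  have h4 : Odd (r ^ μ) := hr.pow
  have h5 : Odd (q ^ ρ) := (hm.of_dvd_nat hqm).pow
  have h7 : Even (r ^ μ - 1) := by
    rcases h4 with ⟨c, hc⟩
    rw [hc]
    exact ⟨c, by omega⟩
  rw [← h] at h7
  exact (Nat.not_even_iff_odd.2 h5) h7

theorem gen_two' (hα : α ≤ 1) : Gen 2 α m := by
  intro q hq _ μ h1 h2 ρ h3 h
  have : μ = 1 := by omega
  subst this
  have h4 : 1 < q ^ ρ := Nat.one_lt_pow (by omega) hq.one_lt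
  omega

theorem gen_five (hr : r.Prime) : Gen r α 5 := by
  rcases hr.eq_two_or_odd' with rfl | hodd
  · intro q hq hq5 μ h1 h2 ρ h3 h
    have hq5' : q = 5 := (Nat.prime_dvd_prime_iff_eq hq Nat.prime_five).1 hq5
    subst hq5'
    have h4 : 1 < 5 ^ ρ := Nat.one_lt_pow (by omega) (by norm_num)
    have h5 : 2 ^ μ = 5 ^ ρ + 1 := by omega
    have h6 : 2 ≤ μ := by
      by_contra h7
      have : μ = 1 := by omega
      subst this
      omega
    have h7 : 4 ∣ 2 ^ μ := pow_dvd_pow 2 h6
    have h8 : 5 ^ ρ % 4 = 1 := by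
      rw [Nat.pow_mod]
      norm_num
    omega
  · exact gen_odd hodd (by decide)

theorem card_five (hr : r.Prime) : (r ^ α * 5).primeFactors.card ≤ 2 := by
  refine (Finset.card_le_card (t := {r, 5}) ?_).trans Finset.card_le_two
  intro p hp
  have h1 := Nat.prime_of_mem_primeFactors hp
  rw [Finset.mem_insert, Finset.mem_singleton]
  rcases h1.dvd_mul.1 (Nat.dvd_of_mem_primeFactors hp) with h | h
  · exact Or.inl ((Nat.prime_dvd_prime_iff_eq h1 hr).1 (h1.dvd_of_dvd_pow h))
  · exact Or.inr ((Nat.prime_dvd_prime_iff_eq h1 Nat.prime_five).1 h)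

theorem five_ndvd (hr : r.Prime) (hr5 : r ≠ 5) : ¬ r ∣ 5 := fun h =>
  hr5 ((Nat.prime_dvd_prime_iff_eq hr Nat.prime_five).1 h)

/-- the exponents `5 r ^ α` -/
theorem crit_five (hr : r.Prime) (hr5 : r ≠ 5) (hα : 1 ≤ α) :
    (LocFin (r ^ α * 5) ↔ LocFin (r ^ α) ∧ Finite (U 3 (r ^ α * 5) ![r ^ α, r ^ α, 5])) ∧
    (LocFin (r ^ α * 5) ↔ LocFin (r ^ α) ∧ Finite (U 2 (r ^ α * 5) ![0, r ^ α]) ∧
      Finite (U 3 (r ^ α * 5) ![r, r, r])) := by
  have hm := five_ndvd hr hr5
  constructor
  · rw [critB hr hm (gen_five hr) (Or.inl (card_five hr))]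
    exact ⟨fun h => ⟨h.1, h.2.2⟩, fun h => ⟨h.1, five' hr hα h.2, h.2⟩⟩
  · rw [crit hr hm (gen_five hr) (Or.inl (card_five hr))]
    exact ⟨fun h => ⟨h.1, h.2.2⟩, fun h => ⟨h.1, five hr hα h.2.1, h.2⟩⟩

theorem crit_five_mul {d : ℕ} (hr : r.Prime) (hr5 : r ≠ 5) (hα : 1 ≤ α) (hd : 2 ≤ d)
    (hL : LocFin (r ^ α)) (h : Finite (U 2 (d * (r ^ α * 5)) ![0, r ^ α])) :
    LocFin (r ^ α * 5) :=
  (crit_five hr hr5 hα).1.2 ⟨hL, (u_three_of_mul hd).1 h⟩

/-- two groups with two generators for the exponent ten -/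
theorem crit_ten : LocFin 10 ↔ Finite (U 2 10 ![0, 2]) ∧ Finite (U 2 10 ![5, 5]) := by
  have h := crit2 (m := 5) (by norm_num) (Or.inl (by
    have := card_five (α := 1) Nat.prime_two
    rwa [pow_one] at this))
  norm_num at h
  rw [h]
  refine ⟨fun h => h.2, fun h => ⟨?_, h⟩⟩
  refine five (r := 2) (α := 1) Nat.prime_two le_rfl ?_
  exact h.1

/-- the exponents `5 m`, `m` odd and prime to five -/
theorem crit_fiveB (hm : Odd m) (h5 : ¬ 5 ∣ m) (hm3 : 3 ≤ m)
    (hs : m.primeFactors.card ≤ 1 ∨ Group.IsSolvable (U 3 (5 * m) ![5, 5, m])) :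
    LocFin (5 * m) ↔ LocFin m ∧ Finite (U 3 (5 * m) ![5, 5, m]) := by
  have hcard : (5 ^ 1 * m).primeFactors.card ≤ 2 ∨
      Group.IsSolvable (U 3 (5 ^ 1 * m) ![5 ^ 1, 5 ^ 1, m]) := by
    rw [pow_one]
    refine hs.imp_left fun h => ?_
    rw [Nat.primeFactors_mul (by norm_num) (by omega)]
    refine (Finset.card_union_le _ _).trans ?_
    rw [Nat.Prime.primeFactors Nat.prime_five, Finset.card_singleton]
    omega
  have h1 := critB (α := 1) Nat.prime_five h5 (gen_odd (by decide) hm) hcard
  rw [pow_one] at h1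
  rw [h1]
  exact ⟨fun h => h.2, fun h => ⟨five'' hm3 h.2, h⟩⟩

end Run7.h806.RL
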